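import Pool.Agent.T9h35.Wide.Defs
import Pool.Agent.T9h34.G.Chain

/-!
Basic facts on monotone gates of large fan-in.
-/

set_option autoImplicit false

namespace Pool.Agent.T9h35.Wide

open Finset Pool.Agent.T9h34

section basic

variable {ι κ : Type*}

/-- The sources of a gate. -/
def srcs : Gate ι → List (Src ι)
  | .and a b => [a, b]
  | .or a b => [a, b]
  | .other args _ => args

/-- The function of a gate. -/
def fn : Gate ι → List Bool → Bool
  | .and _ _ => fun l => l.getD 0 false && l.getD 1 false
  | .or _ _ => fun l => l.getD 0 false || l.getD 1 false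
  | .other _ φ => φ

theorem eval_eq (g : Gate ι) (x : ι → Bool) (vals : List Bool) :
    g.eval x vals = fn g ((srcs g).map fun a => a.eval x vals) := by
  cases g with
  | and a b => simp [Gate.eval, fn, srcs]
  | or a b => simp [Gate.eval, fn, srcs]
  | other args φ => rfl

theorem forall₂_getD {u v : List Bool} (h : List.Forall₂ (· ≤ ·) u v) (j : ℕ)
    (hj : u.getD j false = true) : v.getD j false = true := by
  induction h generalizing j with
  | nil => simp at hj
  | cons hab _ ih =>
    cases j with
    | zero =>
      simp only [List.getD_cons_zero] at hj ⊢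
      rw [hj] at hab
      exact top_le_iff.1 hab
    | succ j =>
      simp only [List.getD_cons_succ] at hj ⊢
      exact ih j hj

theorem mono_fn {f : ℕ} (g : Gate ι) (hg : MonoFanIn f g) : MonoFun (fn g) := by
  cases g with
  | and a b =>
    intro u v h hu
    simp only [fn, Bool.and_eq_true] at hu ⊢
    exact ⟨forall₂_getD h 0 hu.1, forall₂_getD h 1 hu.2⟩
  | or a b =>
    intro u v h hu
    simp only [fn, Bool.or_eq_true] at hu ⊢
    exact hu.imp (forall₂_getD h 0) (forall₂_getD h 1)
  | other args φ => exact hg.2

theorem length_srcs {f : ℕ} (g : Gate ι) (hg : MonoFanIn f g) : (srcs g).length ≤ f + 2 := by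
  cases g with
  | and a b => simp [srcs]
  | or a b => simp [srcs]
  | other args φ => exact hg.1.trans (by omega)

theorem forall₂_map {α : Type*} (l : List α) (p q : α → Bool)
    (h : ∀ a ∈ l, p a = true → q a = true) :
    List.Forall₂ (· ≤ ·) (l.map p) (l.map q) := by
  induction l with
  | nil => simp
  | cons a l ih =>
    simp only [List.map_cons, List.forall₂_cons]
    refine ⟨?_, ih fun b hb => h b (by simp [hb])⟩
    have := h a (by simp)
    cases hp : p a with
    | false => exact Bool.false_le _
    | true => rw [this hp]

theorem mono_gate {f : ℕ} (g : Gate ι) (hg : MonoFanIn f g) (p q : Src ι → Bool)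
    (h : ∀ a ∈ srcs g, p a = true → q a = true) (hp : fn g ((srcs g).map p) = true) :
    fn g ((srcs g).map q) = true :=
  mono_fn g hg _ _ (forall₂_map _ _ _ h) hp

theorem runGates_mono' {f : ℕ} {x y : ι → Bool} (hxy : ∀ i, x i = true → y i = true)
    (gs : List (Gate ι)) (hg : ∀ g ∈ gs, MonoFanIn f g) (j : ℕ)
    (h : (runGates x gs).getD j false = true) : (runGates y gs).getD j false = true := by
  induction gs using List.reverseRecOn generalizing j with
  | nil => simp [runGates] at h
  | append_singleton gs g ih =>
    rw [runGates_append] at h ⊢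
    have hgs : ∀ g ∈ gs, MonoFanIn f g := fun g' hg' => hg g' (by simp [hg'])
    rcases lt_trichotomy j gs.length with hj | hj | hj
    · rw [getD_append_lt (by rw [length_runGates]; exact hj)] at h ⊢
      exact ih hgs j h
    · rw [getD_append_eq (by rw [length_runGates]; exact hj)] at h ⊢
      rw [eval_eq] at h ⊢
      exact mono_gate g (hg g (by simp)) _ _
        (fun a _ ha => Src.eval_mono hxy (fun j => ih hgs j) a ha) h
    · rw [List.getD_eq_default] at h
      · exact absurd h (by simp)
      · simp [length_runGates]; omega

theorem eval_mono' {f : ℕ} {x y : ι → Bool} (hxy : ∀ i, x i = true → y i = true) (C : Circuit ι)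
    (hg : ∀ g ∈ C.gates, MonoFanIn f g) (h : C.eval x = true) : C.eval y = true :=
  Src.eval_mono hxy (runGates_mono' hxy C.gates hg) C.out h

theorem monoFanIn_subst {f : ℕ} (σ : ι → κ ⊕ Bool) (g : Gate ι) :
    MonoFanIn f (g.subst σ) ↔ MonoFanIn f g := by
  cases g with
  | and a b => exact Iff.rfl
  | or a b => exact Iff.rfl
  | other args φ => simp [Gate.subst, MonoFanIn]

theorem numFurther_subst {f : ℕ} (σ : ι → κ ⊕ Bool) (C : Circuit ι) :
    numFurther f (C.subst σ) = numFurther f C := by
  classical
  unfold numFurther Circuit.subst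
  rw [List.countP_map]
  apply List.countP_congr
  intro g _
  simp [monoFanIn_subst]

theorem furtherFanIn_subst {f d : ℕ} (σ : ι → κ ⊕ Bool) (C : Circuit ι) (h : FurtherFanIn f d C) :
    FurtherFanIn f d (C.subst σ) := by
  intro args φ hmem hnot
  simp only [Circuit.subst, List.mem_map] at hmem
  obtain ⟨g, hg, hgs⟩ := hmem
  cases g with
  | and a b => simp [Gate.subst] at hgs
  | or a b => simp [Gate.subst] at hgs
  | other args' φ' =>
    simp only [Gate.subst, Gate.other.injEq] at hgs
    obtain ⟨rfl, rfl⟩ := hgs
    rw [List.length_map]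
    apply h args' φ' hg
    intro hcon
    apply hnot
    simpa [MonoFanIn] using hcon

theorem monoFanIn_const (f : ℕ) (b : Bool) : MonoFanIn f (constGate (ι := ι) b) := trivial

open Classical in
theorem exists_first {f : ℕ} (gs : List (Gate ι))
    (h : 0 < gs.countP (fun g => decide (¬ MonoFanIn f g))) :
    ∃ pre args φ post, gs = pre ++ Gate.other args φ :: post ∧ (∀ g ∈ pre, MonoFanIn f g) ∧
      ¬ MonoFanIn f (Gate.other args φ) := by
  induction gs with
  | nil => simp at h
  | cons g gs ih =>
    by_cases hg : MonoFanIn f g
    · rw [List.countP_cons_of_neg (by simpa using hg)] at h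
      obtain ⟨pre, args, φ, post, h1, h2, h3⟩ := ih h
      refine ⟨g :: pre, args, φ, post, by rw [h1]; rfl, ?_, h3⟩
      intro g' hg'
      rcases List.mem_cons.1 hg' with rfl | hg'
      · exact hg
      · exact h2 g' hg'
    · cases g with
      | and a b => exact absurd trivial hg
      | or a b => exact absurd trivial hg
      | other args φ => exact ⟨[], args, φ, gs, rfl, by simp, hg⟩

end basic

end Pool.Agent.T9h35.Wide
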