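import Pool.Agent.T9h35.Wide.Gate
import Pool.Agent.T9h35.Wide.Basic

/-!
Closed approximators for circuits of monotone gates of large fan-in.
-/

set_option autoImplicit false

namespace Pool.Agent.T9h35.Wide

open Finset Pool.Agent.T9h34

variable {X : Type*} [Fintype X] [DecidableEq X] {Ω : Type*} [Fintype Ω] {N : G.NoiseOp X}

/-- The closed family attached to a source. -/
def sFam (c : ℕ) (I : X → Finset (Finset X)) (𝒜 : ℕ → Finset (Finset X)) (n : ℕ) :
    Src X → Finset (Finset X)
  | .input i => I i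
  | .const b => if b then smalls c else ∅
  | .gate j => if j < n then 𝒜 j else ∅

theorem sFam_closed {L c n : ℕ} {I : X → Finset (Finset X)} {𝒜 : ℕ → Finset (Finset X)}
    (hI : ∀ i, G.Closed N L c (I i) ∧ I i ⊆ smalls c)
    (h𝒜 : ∀ j, G.Closed N L c (𝒜 j) ∧ 𝒜 j ⊆ smalls c) (a : Src X) :
    G.Closed N L c (sFam c I 𝒜 n a) ∧ sFam c I 𝒜 n a ⊆ smalls c := by
  cases a with
  | input i => exact hI i
  | const b =>
    cases b
    · exact ⟨by simpa [sFam] using closed_empty, by simp [sFam]⟩
    · exact ⟨by simpa [sFam] using closed_smalls, by simp [sFam]⟩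
  | gate j =>
    by_cases hj : j < n
    · simpa only [sFam, if_pos hj] using h𝒜 j
    · simp only [sFam, if_neg hj]
      exact ⟨closed_empty, by simp⟩

theorem sFam_pos {c n : ℕ} {I : X → Finset (Finset X)} {𝒜 : ℕ → Finset (Finset X)}
    (hI : ∀ i, {i} ∈ I i) {vals : List Bool} {Z : Finset X}
    (hlen : vals.length = n) (h : ∀ j < n, vals.getD j false = true → cov (𝒜 j) Z) (a : Src X)
    (ha : a.eval (chi Z) vals = true) : cov (sFam c I 𝒜 n a) Z := by
  cases a with
  | input i =>
    refine ⟨{i}, by simpa [sFam] using hI i, ?_⟩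
    simpa [Src.eval, chi] using ha
  | const b =>
    simp only [Src.eval] at ha
    subst ha
    exact ⟨∅, by simp [sFam, mem_smalls], by simp⟩
  | gate j =>
    simp only [Src.eval] at ha
    by_cases hj : j < n
    · simp only [sFam, if_pos hj]
      exact h j hj ha
    · rw [List.getD_eq_default] at ha
      · exact absurd ha (by simp)
      · omega

theorem sFam_neg {c n : ℕ} {I : X → Finset (Finset X)} {𝒜 : ℕ → Finset (Finset X)}
    {vals : List Bool} {Z : Finset X} (hI : ∀ i, cov (I i) Z → i ∈ Z)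
    (h : ∀ j < n, cov (𝒜 j) Z → vals.getD j false = true) (a : Src X)
    (ha : cov (sFam c I 𝒜 n a) Z) : a.eval (chi Z) vals = true := by
  cases a with
  | input i =>
    simpa [Src.eval, chi] using hI i ha
  | const b =>
    cases b
    · obtain ⟨S, hS, _⟩ := ha
      simp [sFam] at hS
    · rfl
  | gate j =>
    by_cases hj : j < n
    · simp only [sFam, if_pos hj] at ha
      exact h j hj ha
    · obtain ⟨S, hS, _⟩ := ha
      simp [sFam, hj] at hS

open Classical in
/-- The family attached to a gate, before closing. -/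
noncomputable def gFam (c : ℕ) (I : X → Finset (Finset X)) (𝒜 : ℕ → Finset (Finset X)) (n : ℕ)
    (g : Gate X) : Finset (Finset X) :=
  (smalls c).filter (fun S => fn g ((srcs g).map fun a => decide (S ∈ sFam c I 𝒜 n a)) = true)

theorem gFam_sub {c n : ℕ} {I : X → Finset (Finset X)} {𝒜 : ℕ → Finset (Finset X)}
    (g : Gate X) : gFam c I 𝒜 n g ⊆ smalls c := by
  unfold gFam
  exact Finset.filter_subset _ _

theorem gFam_pos {c n f : ℕ} {I : X → Finset (Finset X)} {𝒜 : ℕ → Finset (Finset X)}
    (hI : ∀ i, {i} ∈ I i) {vals : List Bool} {Z : Finset X}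
    (hlen : vals.length = n) (h : ∀ j < n, vals.getD j false = true → cov (𝒜 j) Z) (g : Gate X)
    (hg : MonoFanIn f g) (ha : g.eval (chi Z) vals = true)
    (hgood : ¬ Bad c ((srcs g).map (sFam c I 𝒜 n)) ∅ Z) : cov (gFam c I 𝒜 n g) Z := by
  classical
  unfold Bad at hgood
  push Not at hgood
  obtain ⟨S, _, hSZ, hSc, hS⟩ := hgood (Finset.empty_subset _)
  refine ⟨S, ?_, hSZ⟩
  unfold gFam
  rw [Finset.mem_filter]
  refine ⟨mem_smalls.2 hSc, ?_⟩
  rw [eval_eq] at ha
  refine mono_gate g hg _ _ ?_ ha
  intro a haS hav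
  rw [decide_eq_true_eq]
  exact hS _ (List.mem_map.2 ⟨a, haS, rfl⟩) (sFam_pos hI hlen h a hav)

theorem gFam_neg {c n f : ℕ} {I : X → Finset (Finset X)} {𝒜 : ℕ → Finset (Finset X)}
    {vals : List Bool} {Z : Finset X} (hI : ∀ i, cov (I i) Z → i ∈ Z)
    (h : ∀ j < n, cov (𝒜 j) Z → vals.getD j false = true) (g : Gate X)
    (hg : MonoFanIn f g) (ha : cov (gFam c I 𝒜 n g) Z) : g.eval (chi Z) vals = true := by
  classical
  obtain ⟨S, hS, hSZ⟩ := ha
  unfold gFam at hS
  rw [Finset.mem_filter] at hS
  rw [eval_eq]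
  refine mono_gate g hg _ _ ?_ hS.2
  intro a _ hav
  rw [decide_eq_true_eq] at hav
  exact sFam_neg hI h a ⟨S, hav, hSZ⟩

/-- The closures of the inputs. -/
theorem exists_inputs (N : G.NoiseOp X) (L : ℕ) {c : ℕ} (hc : 1 ≤ c) :
    ∃ I : X → Finset (Finset X), (∀ i, {i} ∈ I i) ∧
      (∀ i, G.Closed N L c (I i) ∧ I i ⊆ smalls c) ∧
      ∀ T : Finset X, N.iter L (fun W => ind (∃ i, cov (I i) (T ∪ W) ∧ i ∉ T ∪ W))
        ≤ Fintype.card X * (((smalls (X := X) c).card : ℝ) * (1 / 2 : ℝ) ^ L) := by
  have h : ∀ i : X, ∃ 𝒞 : Finset (Finset X), {i} ∈ 𝒞 ∧ (G.Closed N L c 𝒞 ∧ 𝒞 ⊆ smalls c) ∧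
      ∀ T : Finset X, N.iter L (fun W => ind (cov 𝒞 (T ∪ W) ∧ i ∉ T ∪ W))
        ≤ ((smalls (X := X) c).card : ℝ) * (1 / 2 : ℝ) ^ L := by
    intro i
    obtain ⟨𝒞, h1, h2, h3, h4⟩ := G.exists_closure N (L := L) (c := c) {{i}} (by
      intro S hS
      rw [Finset.mem_singleton] at hS
      rw [mem_smalls, hS]
      simpa using hc)
    refine ⟨𝒞, h1 (by simp), ⟨h3, h2⟩, ?_⟩
    intro T
    have h5 : ∀ W : Finset X, ind (cov 𝒞 (T ∪ W) ∧ i ∉ T ∪ W) ≤
        ind (cov 𝒞 (T ∪ W) ∧ ¬ cov {{i}} (T ∪ W)) := by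
      intro W
      apply ind_mono
      rintro ⟨h6, h7⟩
      refine ⟨h6, ?_⟩
      rintro ⟨S, hS, hSW⟩
      rw [Finset.mem_singleton] at hS
      subst hS
      exact h7 (hSW (by simp))
    refine (N.iter_mono L h5).trans ((h4 T).trans ?_)
    apply mul_le_mul_of_nonneg_right _ (by positivity)
    exact_mod_cast Finset.card_le_card Finset.sdiff_subset
  choose I hI1 hI2 hI3 using h
  refine ⟨I, hI1, hI2, ?_⟩
  intro T
  have h5 : ∀ W : Finset X, ind (∃ i, cov (I i) (T ∪ W) ∧ i ∉ T ∪ W) ≤
      ∑ i ∈ (Finset.univ : Finset X), ind (cov (I i) (T ∪ W) ∧ i ∉ T ∪ W) := by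
    intro W
    refine le_trans (ind_mono ?_) (ind_exists_le' _ _)
    rintro ⟨i, hi⟩
    exact ⟨i, Finset.mem_univ _, hi⟩
  refine (N.iter_mono L h5).trans ?_
  rw [N.iter_sum]
  refine (Finset.sum_le_sum fun i _ => hI3 i T).trans (le_of_eq ?_)
  rw [Finset.sum_const, Finset.card_univ, nsmul_eq_mul]

/-- The hypotheses on the parameters. -/
structure Hyp (N : G.NoiseOp X) (v : Ω → Finset X) (L c f : ℕ) (B κ : ℝ) : Prop where
  hL : 0 < L
  hc : 1 ≤ c
  hB1 : 1 ≤ B
  hcov : G.Covers N c B
  hκ : 0 ≤ κ
  hsp : Spread v (2 * c) κ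
  hBκ : 16 * (B * κ) ≤ 1
  hf : 24 * (B * κ * ((f + 2 : ℕ) : ℝ)) ≤ c

variable {L c f : ℕ} {B κ : ℝ} {v : Ω → Finset X}

theorem approx_gates' (H : Hyp N v L c f B κ) (I : X → Finset (Finset X))
    (hI1 : ∀ i, {i} ∈ I i) (hI2 : ∀ i, G.Closed N L c (I i) ∧ I i ⊆ smalls c)
    (gs : List (Gate X)) (hm : ∀ g ∈ gs, MonoFanIn f g) :
    ∃ 𝒜 : ℕ → Finset (Finset X), (∀ j, G.Closed N L c (𝒜 j) ∧ 𝒜 j ⊆ smalls c) ∧
      Ev v (fun Z => ind (∃ j < gs.length,
        (runGates (chi Z) gs).getD j false = true ∧ ¬ cov (𝒜 j) Z))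
          ≤ gs.length * (1 / 2 : ℝ) ^ c ∧
      ∀ T : Finset X, N.iter L (fun W => ind ((∀ i, cov (I i) (T ∪ W) → i ∈ T ∪ W) ∧
        ∃ j < gs.length, cov (𝒜 j) (T ∪ W) ∧ (runGates (chi (T ∪ W)) gs).getD j false = false))
          ≤ gs.length * (((smalls (X := X) c).card : ℝ) * (1 / 2 : ℝ) ^ L) := by
  induction gs using List.reverseRecOn with
  | nil =>
    refine ⟨fun _ => ∅, fun _ => ⟨closed_empty, by simp⟩, ?_, ?_⟩
    · have : (fun Z : Finset X => ind (∃ j < ([] : List (Gate X)).length,
          (runGates (chi Z) []).getD j false = true ∧ ¬ cov (∅ : Finset (Finset X)) Z))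
          = fun _ => (0 : ℝ) * 1 := by
        funext Z
        rw [ind_not (by simp)]; ring
      rw [this, Ev_const_mul]
      simp
    · intro T
      have : (fun W : Finset X => ind ((∀ i, cov (I i) (T ∪ W) → i ∈ T ∪ W) ∧
          ∃ j < ([] : List (Gate X)).length,
          cov (∅ : Finset (Finset X)) (T ∪ W) ∧
            (runGates (chi (T ∪ W)) []).getD j false = false))
          = fun _ => (0 : ℝ) := by
        funext Z
        rw [ind_not (by simp)]
      rw [this, N.iter_const]
      simp
  | append_singleton gs g ih =>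
    have hgs : ∀ g ∈ gs, MonoFanIn f g := fun g' hg' => hm g' (by simp [hg'])
    have hg : MonoFanIn f g := hm g (by simp)
    obtain ⟨𝒜, h1, h2, h3⟩ := ih hgs
    obtain ⟨𝒞, hc1, hc2, hc3, hc4⟩ := G.exists_closure N (L := L)
      (gFam c I 𝒜 gs.length g) (gFam_sub g)
    refine ⟨fun j => if j = gs.length then 𝒞 else 𝒜 j, ?_, ?_, ?_⟩
    · intro j
      by_cases hj : j = gs.length
      · simp only [if_pos hj]
        exact ⟨hc3, hc2⟩
      · simp only [if_neg hj]
        exact h1 j
    · have hpt : ∀ Z : Finset X, ind (∃ j < (gs ++ [g]).length,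
          (runGates (chi Z) (gs ++ [g])).getD j false = true ∧
            ¬ cov (if j = gs.length then 𝒞 else 𝒜 j) Z)
          ≤ ind (∃ j < gs.length, (runGates (chi Z) gs).getD j false = true ∧ ¬ cov (𝒜 j) Z)
            + ind (Bad c ((srcs g).map (sFam c I 𝒜 gs.length)) ∅ Z) := by
        intro Z
        refine le_trans (ind_mono ?_) (ind_or_le _ _)
        rintro ⟨j, hj, hv, hnc⟩
        by_cases hbad : ∃ j < gs.length,
            (runGates (chi Z) gs).getD j false = true ∧ ¬ cov (𝒜 j) Z
        · exact Or.inl hbad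
        · right
          push Not at hbad
          rw [runGates_append] at hv
          have hlen : (gs ++ [g]).length = gs.length + 1 := by simp
          rw [hlen] at hj
          rcases lt_or_eq_of_le (Nat.lt_succ_iff.1 hj) with hj' | hj'
          · rw [getD_append_lt (by rw [length_runGates]; exact hj')] at hv
            rw [if_neg (by omega)] at hnc
            exact absurd (hbad j hj' hv) hnc
          · rw [getD_append_eq (by rw [length_runGates]; exact hj')] at hv
            rw [if_pos hj'] at hnc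
            by_contra hgood
            apply hnc
            exact cov_mono hc1 (le_refl _)
              (gFam_pos hI1 (length_runGates (chi Z) gs) hbad g hg hv hgood)
      refine le_trans (Ev_mono v hpt) ?_
      rw [Ev_add]
      have h4 := Ev_bad_small H.hL H.hB1 H.hcov v H.hκ H.hsp H.hBκ H.hf
        ((srcs g).map (sFam c I 𝒜 gs.length))
        (by
          intro 𝒮 h𝒮
          obtain ⟨a, _, rfl⟩ := List.mem_map.1 h𝒮
          exact sFam_closed hI2 h1 a)
        (by rw [List.length_map]; exact length_srcs g hg)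
      have hlen : ((gs ++ [g]).length : ℝ) = gs.length + 1 := by simp
      rw [hlen]
      linarith
    · intro T
      have hpt : ∀ W : Finset X, ind ((∀ i, cov (I i) (T ∪ W) → i ∈ T ∪ W) ∧
          ∃ j < (gs ++ [g]).length,
          cov (if j = gs.length then 𝒞 else 𝒜 j) (T ∪ W) ∧
          (runGates (chi (T ∪ W)) (gs ++ [g])).getD j false = false)
          ≤ ind ((∀ i, cov (I i) (T ∪ W) → i ∈ T ∪ W) ∧
              ∃ j < gs.length, cov (𝒜 j) (T ∪ W) ∧
              (runGates (chi (T ∪ W)) gs).getD j false = false)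
            + ind (cov 𝒞 (T ∪ W) ∧ ¬ cov (gFam c I 𝒜 gs.length g) (T ∪ W)) := by
        intro W
        refine le_trans (ind_mono ?_) (ind_or_le _ _)
        rintro ⟨hin, j, hj, hcv, hv⟩
        by_cases hbad : ∃ j < gs.length, cov (𝒜 j) (T ∪ W) ∧
            (runGates (chi (T ∪ W)) gs).getD j false = false
        · exact Or.inl ⟨hin, hbad⟩
        · right
          push Not at hbad
          have hbad' : ∀ j < gs.length, cov (𝒜 j) (T ∪ W) →
              (runGates (chi (T ∪ W)) gs).getD j false = true := by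
            intro j hj hc
            have := hbad j hj hc
            simpa using this
          rw [runGates_append] at hv
          have hlen : (gs ++ [g]).length = gs.length + 1 := by simp
          rw [hlen] at hj
          rcases lt_or_eq_of_le (Nat.lt_succ_iff.1 hj) with hj' | hj'
          · rw [getD_append_lt (by rw [length_runGates]; exact hj')] at hv
            rw [if_neg (by omega)] at hcv
            exact absurd hv (by rw [hbad' j hj' hcv]; simp)
          · rw [getD_append_eq (by rw [length_runGates]; exact hj')] at hv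
            rw [if_pos hj'] at hcv
            refine ⟨hcv, ?_⟩
            intro hF
            have := gFam_neg hin hbad' g hg hF
            rw [this] at hv
            exact absurd hv (by simp)
      refine le_trans (N.iter_mono L hpt) ?_
      rw [N.iter_add]
      have h4 := h3 T
      have h5 := hc4 T
      have h6 : ((smalls (X := X) c \ gFam c I 𝒜 gs.length g).card : ℝ)
          ≤ (smalls (X := X) c).card := by
        exact_mod_cast Finset.card_le_card Finset.sdiff_subset
      have h7 : ((smalls (X := X) c \ gFam c I 𝒜 gs.length g).card : ℝ) * (1 / 2 : ℝ) ^ L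
          ≤ (smalls (X := X) c).card * (1 / 2 : ℝ) ^ L :=
        mul_le_mul_of_nonneg_right h6 (by positivity)
      have hlen : ((gs ++ [g]).length : ℝ) = gs.length + 1 := by simp
      rw [hlen]
      linarith

/-- **Domination lemma.** If a circuit of monotone gates of fan-in at most `f` accepts a spread
random set with some probability, then it accepts the noise with a comparable probability, up to
an error proportional to its size. -/
theorem domination' (H : Hyp N v L c f B κ) (C : Circuit X)
    (hm : ∀ g ∈ C.gates, MonoFanIn f g) :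
    Ev v (fun Z => ind (C.eval (chi Z) = true))
      ≤ 3 * N.iter (L + 1) (fun U => ind (C.eval (chi U) = true))
        + (C.size * (1 / 2 : ℝ) ^ c
          + 3 * ((C.size + Fintype.card X) *
            (((smalls (X := X) c).card : ℝ) * (1 / 2 : ℝ) ^ L))) := by
  obtain ⟨I, hI1, hI2, hI3⟩ := exists_inputs N L H.hc
  obtain ⟨𝒜, h1, h2, h3⟩ := approx_gates' H I hI1 hI2 C.gates hm
  set n := C.gates.length with hn
  set 𝒞 := sFam c I 𝒜 n C.out with h𝒞
  obtain ⟨hc3, hc2⟩ := sFam_closed (n := n) hI2 h1 C.out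
  rw [← h𝒞] at hc3 hc2
  set δ := ((smalls (X := X) c).card : ℝ) * (1 / 2 : ℝ) ^ L with hδ
  have hδ0 : 0 ≤ δ := by positivity
  -- positive side
  have hpos : Ev v (fun Z => ind (C.eval (chi Z) = true))
      ≤ n * (1 / 2 : ℝ) ^ c + Ev v (fun Z => ind (cov 𝒞 Z)) := by
    have hpt : ∀ Z : Finset X, ind (C.eval (chi Z) = true)
        ≤ ind (∃ j < C.gates.length,
            (runGates (chi Z) C.gates).getD j false = true ∧ ¬ cov (𝒜 j) Z)
          + ind (cov 𝒞 Z) := by
      intro Z
      refine le_trans (ind_mono ?_) (ind_or_le _ _)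
      intro hv
      by_cases hbad : ∃ j < C.gates.length,
          (runGates (chi Z) C.gates).getD j false = true ∧ ¬ cov (𝒜 j) Z
      · exact Or.inl hbad
      · right
        push Not at hbad
        exact sFam_pos hI1 (length_runGates _ _) hbad C.out hv
    refine le_trans (Ev_mono v hpt) ?_
    rw [Ev_add]
    linarith
  -- negative side
  have hneg : ∀ z : Finset X, ind (cov 𝒞 z) ≤
      N.iter L (fun W => ind (C.eval (chi (z ∪ W)) = true)) + (n + Fintype.card X) * δ := by
    intro z
    by_cases hz : cov 𝒞 z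
    · rw [ind_of hz]
      have hpt : ∀ W : Finset X, (1 : ℝ) ≤ ind (C.eval (chi (z ∪ W)) = true)
          + (ind ((∀ i, cov (I i) (z ∪ W) → i ∈ z ∪ W) ∧
              ∃ j < C.gates.length, cov (𝒜 j) (z ∪ W) ∧
              (runGates (chi (z ∪ W)) C.gates).getD j false = false)
            + ind (∃ i, cov (I i) (z ∪ W) ∧ i ∉ z ∪ W)) := by
        intro W
        have p1 := ind_nonneg (C.eval (chi (z ∪ W)) = true)
        have p2 := ind_nonneg ((∀ i, cov (I i) (z ∪ W) → i ∈ z ∪ W) ∧
              ∃ j < C.gates.length, cov (𝒜 j) (z ∪ W) ∧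
              (runGates (chi (z ∪ W)) C.gates).getD j false = false)
        have p3 := ind_nonneg (∃ i, cov (I i) (z ∪ W) ∧ i ∉ z ∪ W)
        by_cases hin : ∃ i, cov (I i) (z ∪ W) ∧ i ∉ z ∪ W
        · rw [ind_of hin]
          linarith
        have hin' : ∀ i, cov (I i) (z ∪ W) → i ∈ z ∪ W := by
          intro i hi
          by_contra hc
          exact hin ⟨i, hi, hc⟩
        by_cases hbad : ∃ j < C.gates.length, cov (𝒜 j) (z ∪ W) ∧
              (runGates (chi (z ∪ W)) C.gates).getD j false = false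
        · rw [ind_of (⟨hin', hbad⟩ : (∀ i, cov (I i) (z ∪ W) → i ∈ z ∪ W) ∧
              ∃ j < C.gates.length, cov (𝒜 j) (z ∪ W) ∧
              (runGates (chi (z ∪ W)) C.gates).getD j false = false)]
          linarith
        · have hbad' : ∀ j < C.gates.length, cov (𝒜 j) (z ∪ W) →
                (runGates (chi (z ∪ W)) C.gates).getD j false = true := by
            push Not at hbad
            intro j hj hc
            simpa using hbad j hj hc
          have hv : C.eval (chi (z ∪ W)) = true :=
            sFam_neg hin' hbad' C.out (cov_mono (le_refl _) Finset.subset_union_left hz)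
          rw [ind_of hv]
          linarith
      have h4 := N.iter_mono L hpt
      rw [N.iter_const, N.iter_add, N.iter_add] at h4
      have h5 := h3 z
      have h6 := hI3 z
      rw [← hn] at h4
      have h7 : ((n : ℝ) + Fintype.card X) * δ = n * δ + Fintype.card X * δ := by ring
      rw [h7]
      linarith
    · rw [ind_not hz]
      have : 0 ≤ N.iter L (fun W => ind (C.eval (chi (z ∪ W)) = true)) :=
        N.iter_nonneg L (fun W => ind_nonneg _)
      positivity
  have hneg' : N.E (fun z => ind (cov 𝒞 z))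
      ≤ N.iter (L + 1) (fun U => ind (C.eval (chi U) = true)) + (n + Fintype.card X) * δ := by
    refine le_trans (N.mono hneg) ?_
    rw [N.add', N.const']
    simp only [G.NoiseOp.iter]
    linarith
  have hsp' : Spread v c κ := fun T hT => H.hsp T (by omega)
  have hBκ' : B * κ ≤ 1 / 4 := by
    have := H.hBκ
    linarith
  have hcmp := G.Ev_cov_le H.hL H.hB1 H.hcov hc3 hc2 v H.hκ hsp' hBκ'
  have hsize : (C.size : ℝ) = n := by rw [hn]; rfl
  rw [hsize]
  linarith

end Pool.Agent.T9h35.Wide
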