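import Pool.Agent.T9h35.Wide.Average
import Pool.Agent.T9h34.G.Params

/-!
Choice of the parameters, monotone gates of large fan-in.
-/

set_option autoImplicit false

namespace Pool.Agent.T9h35.Wide

open Finset Pool.Agent.T9h34

/-- The error term is negligible. -/
theorem err_bound' {X : Type*} [Fintype X] [DecidableEq X] {lam l r s : ℕ} (hl : lam ≤ l)
    (hlam : 1 ≤ lam) (hs : s < 2 ^ l) (hr2 : r < 2 ^ (2 * lam))
    (hXcard : Fintype.card X + 1 ≤ 2 ^ (2 * lam)) :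
    (r : ℝ) * err X (16 * (lam * l)) (4 * l) s ≤ 1 := by
  have hl1 : 1 ≤ l := le_trans hlam hl
  set L := 16 * (lam * l) with hL
  have hll : 1 ≤ lam * l := Nat.one_le_iff_ne_zero.2 (by positivity)
  have hsm : ((smalls (X := X) (4 * l)).card : ℝ) ≤ 2 ^ (8 * (lam * l)) := by
    have h1 := card_smalls_le (X := X) (4 * l)
    have h2 : (Fintype.card X + 1) ^ (4 * l) ≤ (2 ^ (2 * lam)) ^ (4 * l) :=
      Nat.pow_le_pow_left hXcard _
    have h3 : (2 ^ (2 * lam)) ^ (4 * l) = 2 ^ (8 * (lam * l)) := by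
      rw [← pow_mul]; congr 1; ring
    rw [h3] at h2
    exact_mod_cast le_trans h1 h2
  unfold err
  have hrR : (r : ℝ) ≤ 2 ^ (2 * lam) := by exact_mod_cast hr2.le
  have hsR : (s : ℝ) ≤ 2 ^ l := by exact_mod_cast hs.le
  have hXR : (Fintype.card X : ℝ) ≤ 2 ^ (2 * lam) := by
    have : Fintype.card X ≤ 2 ^ (2 * lam) := by omega
    exact_mod_cast this
  have hlR : (2 : ℝ) ^ (2 * lam) ≤ 2 ^ (2 * l) :=
    pow_le_pow_right₀ (by norm_num) (by omega)
  have hs0 : (0 : ℝ) ≤ s := Nat.cast_nonneg s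
  have hr0 : (0 : ℝ) ≤ r := Nat.cast_nonneg r
  have hX0 : (0 : ℝ) ≤ Fintype.card X := Nat.cast_nonneg _
  have hsX : (s : ℝ) + Fintype.card X ≤ 2 ^ (2 * l + 1) := by
    have h1 : (2 : ℝ) ^ l ≤ 2 ^ (2 * l) := pow_le_pow_right₀ (by norm_num) (by omega)
    rw [pow_succ]
    linarith
  have h1 : (r : ℝ) * (s * (1 / 2 : ℝ) ^ (4 * l)) ≤ 1 / 2 := by
    have hp1 : (0 : ℝ) ≤ (1 / 2 : ℝ) ^ (4 * l) := pow_nonneg (by norm_num) _
    calc (r : ℝ) * (s * (1 / 2 : ℝ) ^ (4 * l))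
        ≤ 2 ^ (2 * l) * (2 ^ l * (1 / 2 : ℝ) ^ (4 * l)) := by
          apply mul_le_mul (le_trans hrR hlR) _ (mul_nonneg hs0 hp1) (pow_nonneg (by norm_num) _)
          apply mul_le_mul_of_nonneg_right hsR hp1
      _ = (1 / 2) ^ l := by
          have h3 : (1 / 2 : ℝ) ^ (4 * l) = (1 / 2) ^ (3 * l) * (1 / 2) ^ l := by
            rw [← pow_add]; congr 1; ring
          have h4 : (2 : ℝ) ^ (2 * l) * 2 ^ l = 2 ^ (3 * l) := by
            rw [← pow_add]; congr 1; ring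
          have h5 : (2 : ℝ) ^ (3 * l) * (1 / 2) ^ (3 * l) = 1 := by
            rw [← mul_pow]; norm_num
          rw [h3]
          calc (2 : ℝ) ^ (2 * l) * (2 ^ l * ((1 / 2) ^ (3 * l) * (1 / 2) ^ l))
              = (2 ^ (2 * l) * 2 ^ l) * (1 / 2) ^ (3 * l) * (1 / 2) ^ l := by ring
            _ = (1 / 2) ^ l := by rw [h4, h5, one_mul]
      _ ≤ (1 / 2) ^ 1 := pow_le_pow_of_le_one (by norm_num) (by norm_num) hl1
      _ = 1 / 2 := by norm_num
  have h2 : (r : ℝ) * (3 * ((s + Fintype.card X) * (((smalls (X := X) (4 * l)).card : ℝ)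
      * (1 / 2 : ℝ) ^ L))) ≤ 1 / 2 := by
    have hp1 : (0 : ℝ) ≤ (1 / 2 : ℝ) ^ L := pow_nonneg (by norm_num) _
    have hc0 : (0 : ℝ) ≤ ((smalls (X := X) (4 * l)).card : ℝ) := Nat.cast_nonneg _
    calc (r : ℝ) * (3 * ((s + Fintype.card X) * (((smalls (X := X) (4 * l)).card : ℝ)
          * (1 / 2 : ℝ) ^ L)))
        ≤ 2 ^ (2 * lam) * (4 * (2 ^ (2 * l + 1) * (2 ^ (8 * (lam * l)) * (1 / 2 : ℝ) ^ L))) := by
          apply mul_le_mul hrR _ _ (pow_nonneg (by norm_num) _)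
          · apply mul_le_mul (by norm_num) _ _ (by norm_num)
            · apply mul_le_mul hsX _ (mul_nonneg hc0 hp1) (pow_nonneg (by norm_num) _)
              exact mul_le_mul_of_nonneg_right hsm hp1
            · exact mul_nonneg (by linarith) (mul_nonneg hc0 hp1)
          · exact mul_nonneg (by norm_num) (mul_nonneg (by linarith) (mul_nonneg hc0 hp1))
      _ = 2 ^ (2 * lam + 2 + (2 * l + 1) + 8 * (lam * l)) * (1 / 2 : ℝ) ^ L := by
          have e1 : (2 : ℝ) ^ (2 * lam + 2 + (2 * l + 1) + 8 * (lam * l)) =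
              2 ^ (2 * lam) * 2 ^ 2 * 2 ^ (2 * l + 1) * 2 ^ (8 * (lam * l)) := by
            rw [pow_add, pow_add, pow_add]
          rw [e1]
          norm_num
          ring
      _ ≤ 2 ^ (L - 1) * (1 / 2 : ℝ) ^ L := by
          apply mul_le_mul_of_nonneg_right _ hp1
          apply pow_le_pow_right₀ (by norm_num)
          have h3 : lam ≤ lam * l := Nat.le_mul_of_pos_right _ hl1
          have h4 : l ≤ lam * l := Nat.le_mul_of_pos_left _ hlam
          omega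
      _ = 1 / 2 := by
          have h5 : L = (L - 1) + 1 := by omega
          have h6 : (1 / 2 : ℝ) ^ L = (1 / 2) ^ (L - 1) * (1 / 2) := by
            conv_lhs => rw [h5]
            rw [pow_succ]
          rw [h6, ← mul_assoc, ← mul_pow]
          norm_num
  rw [mul_add]
  linarith

/-- The arithmetic of the choice of the number of bits. -/
theorem bits' {n lam l w : ℕ} (hn : n < 2 ^ lam) (hl : lam ≤ l) (hlam : 1 ≤ lam) (hw : l ≤ w)
    (hbig : 18828492800 * lam ^ 7 * l ^ 2 * w < n ^ 2) :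
    ∃ b : ℕ, 1 ≤ b ∧ b ≤ lam ∧ 2 ^ b ≤ n ∧ 2 ^ b * (520 * lam ^ 2 * l) ≤ n ∧
      n < 2 ^ b * (1040 * lam ^ 2 * l) ∧ 17408 * (lam ^ 3 * w) ≤ 2 ^ (2 * b) ∧
      4160 * lam ^ 4 * l ≤ n := by
  have hl1 : 1 ≤ l := le_trans hlam hl
  have hw1 : 1 ≤ w := le_trans hl1 hw
  have h520 : 0 < 520 * lam ^ 2 * l := by positivity
  have hmain : lam ^ 7 * l ^ 3 ≤ lam ^ 7 * l ^ 2 * w := by
    calc lam ^ 7 * l ^ 3 = lam ^ 7 * l ^ 2 * l := by ring
      _ ≤ lam ^ 7 * l ^ 2 * w := Nat.mul_le_mul_left _ hw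
  have h0 : 18828492800 * lam ^ 7 * l ^ 2 * w = 18828492800 * (lam ^ 7 * l ^ 2 * w) := by ring
  have hn1040 : 1040 * lam ^ 2 * l < n := by
    by_contra hlt
    push Not at hlt
    have h1 : n ^ 2 ≤ (1040 * lam ^ 2 * l) ^ 2 := Nat.pow_le_pow_left hlt 2
    have h2 : (1040 * lam ^ 2 * l) ^ 2 = 1081600 * (lam ^ 4 * l ^ 2) := by ring
    have h3 : lam ^ 4 * l ^ 2 ≤ lam ^ 7 * l ^ 3 :=
      Nat.mul_le_mul (Nat.pow_le_pow_right hlam (by norm_num))
        (Nat.pow_le_pow_right hl1 (by norm_num))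
    omega
  have hn4160 : 4160 * lam ^ 4 * l ≤ n := by
    by_contra hlt
    push Not at hlt
    have h1 : n ^ 2 ≤ (4160 * lam ^ 4 * l) ^ 2 := Nat.pow_le_pow_left hlt.le 2
    have h2 : (4160 * lam ^ 4 * l) ^ 2 = 17305600 * (lam ^ 8 * l ^ 2) := by ring
    have h3 : lam ^ 8 * l ^ 2 ≤ lam ^ 7 * l ^ 3 := by
      calc lam ^ 8 * l ^ 2 = lam ^ 7 * (lam * l ^ 2) := by ring
        _ ≤ lam ^ 7 * (l * l ^ 2) := Nat.mul_le_mul_left _ (Nat.mul_le_mul_right _ hl)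
        _ = lam ^ 7 * l ^ 3 := by ring
    omega
  refine ⟨Nat.log 2 (n / (520 * lam ^ 2 * l)), ?_⟩
  set b := Nat.log 2 (n / (520 * lam ^ 2 * l)) with hb
  have hq : 2 ≤ n / (520 * lam ^ 2 * l) := by
    rw [Nat.le_div_iff_mul_le h520]
    have h3 : 2 * (520 * lam ^ 2 * l) = 1040 * lam ^ 2 * l := by ring
    rw [h3]
    omega
  have hb1 : 1 ≤ b := Nat.log_pos (by norm_num) hq
  have h2b : 2 ^ b * (520 * lam ^ 2 * l) ≤ n := by
    have := Nat.pow_log_le_self 2 (x := n / (520 * lam ^ 2 * l)) (by omega)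
    rw [← hb] at this
    exact le_trans (Nat.mul_le_mul_right _ this) (Nat.div_mul_le_self _ _)
  have h2b' : n < 2 ^ b * (1040 * lam ^ 2 * l) := by
    have := Nat.lt_pow_succ_log_self (b := 2) (by norm_num) (n / (520 * lam ^ 2 * l))
    rw [← hb, Nat.div_lt_iff_lt_mul h520, pow_succ] at this
    calc n < 2 ^ b * 2 * (520 * lam ^ 2 * l) := this
      _ = 2 ^ b * (1040 * lam ^ 2 * l) := by ring
  have hbn : 2 ^ b ≤ n := le_trans (Nat.le_mul_of_pos_right _ h520) h2b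
  have hblam : b ≤ lam := by
    by_contra hlt
    push Not at hlt
    have : 2 ^ lam ≤ 2 ^ b := Nat.pow_le_pow_right (by norm_num) hlt.le
    omega
  refine ⟨hb1, hblam, hbn, h2b, h2b', ?_, hn4160⟩
  by_contra hlt
  push Not at hlt
  have h1 : n ^ 2 ≤ (2 ^ b * (1040 * lam ^ 2 * l)) ^ 2 := Nat.pow_le_pow_left h2b'.le 2
  have h2 : (2 ^ b * (1040 * lam ^ 2 * l)) ^ 2 = 2 ^ (2 * b) * (1081600 * (lam ^ 4 * l ^ 2)) := by
    rw [mul_pow, ← pow_mul, mul_comm b 2]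
    ring
  have h3 : 2 ^ (2 * b) * (1081600 * (lam ^ 4 * l ^ 2)) ≤
      17408 * (lam ^ 3 * w) * (1081600 * (lam ^ 4 * l ^ 2)) := Nat.mul_le_mul_right _ hlt.le
  have h4 : 17408 * (lam ^ 3 * w) * (1081600 * (lam ^ 4 * l ^ 2)) =
      18828492800 * lam ^ 7 * l ^ 2 * w := by ring
  omega

/-- The sizes of the graph. -/
theorem sizes' {n lam l b m a k : ℕ} (hlam : 1 ≤ lam) (hn : n < 2 ^ lam) (hl1 : 1 ≤ l)
    (hblam : b ≤ lam) (h2b : 2 ^ b * (520 * lam ^ 2 * l) ≤ n) (h4160 : 4160 * lam ^ 4 * l ≤ n)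
    (hm : m = 128 * (lam * b * l)) (ha : a = m + 2 * lam) (hk : k = 2 * lam) :
    (a * 2) * 2 ^ b * 2 ≤ n ∧ (a * (2 * (b * k))) * 4 * 2 ≤ n ∧
      a * 2 + a * (2 * (b * k)) ≤ n ∧ 4 * (a * (2 * b)) ≤ 2 ^ k ∧ 4 * l < 2 ^ lam := by
  have hbl : lam * b * l ≤ lam ^ 2 * l := by
    apply Nat.mul_le_mul_right
    rw [sq]
    exact Nat.mul_le_mul_left _ hblam
  have hlaml : lam ≤ lam ^ 2 * l := by
    calc lam = lam * 1 * 1 := by ring
      _ ≤ lam * lam * l := Nat.mul_le_mul (Nat.mul_le_mul_left _ hlam) hl1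
      _ = lam ^ 2 * l := by ring
  have ha130 : a ≤ 130 * (lam ^ 2 * l) := by omega
  have hV1 : (a * 2) * 2 ^ b * 2 ≤ n := by
    calc (a * 2) * 2 ^ b * 2 ≤ (130 * (lam ^ 2 * l) * 2) * 2 ^ b * 2 := by
          apply Nat.mul_le_mul_right
          apply Nat.mul_le_mul_right
          exact Nat.mul_le_mul_right _ ha130
      _ = 2 ^ b * (520 * lam ^ 2 * l) := by ring
      _ ≤ n := h2b
  have hV2 : (a * (2 * (b * k))) * 4 * 2 ≤ n := by
    calc (a * (2 * (b * k))) * 4 * 2 ≤ (130 * (lam ^ 2 * l) * (2 * (lam * (2 * lam)))) * 4 * 2 := by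
          apply Nat.mul_le_mul_right
          apply Nat.mul_le_mul_right
          apply Nat.mul_le_mul ha130
          apply Nat.mul_le_mul_left
          rw [hk]
          exact Nat.mul_le_mul_right _ hblam
      _ = 4160 * lam ^ 4 * l := by ring
      _ ≤ n := h4160
  have h1 : a * 2 ≤ (a * 2) * 2 ^ b := Nat.le_mul_of_pos_right _ (by positivity)
  refine ⟨hV1, hV2, by omega, ?_, ?_⟩
  · have hb2 : b ≤ 2 ^ b := Nat.lt_two_pow_self.le
    have h3 : 4 * (a * (2 * b)) ≤ 2 * n := by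
      calc 4 * (a * (2 * b)) ≤ 4 * (a * (2 * 2 ^ b)) :=
            Nat.mul_le_mul_left _ (Nat.mul_le_mul_left _ (Nat.mul_le_mul_left _ hb2))
        _ = 2 * ((a * 2) * 2 ^ b * 2) := by ring
        _ ≤ 2 * n := Nat.mul_le_mul_left _ hV1
    have h4 : 2 ^ (lam + 1) ≤ 2 ^ k := Nat.pow_le_pow_right (by norm_num) (by omega)
    rw [pow_succ] at h4
    omega
  · have h5 : 4 * l ≤ 4160 * lam ^ 4 * l := by
      apply Nat.mul_le_mul_right
      have : 1 ≤ lam ^ 4 := Nat.one_le_pow _ _ hlam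
      omega
    omega

theorem main_case' {n lam l s f : ℕ} (hn : n < 2 ^ lam) (hl : lam ≤ l) (hlam : 1 ≤ lam)
    (hs : s < 2 ^ l) (hbig : 18828492800 * lam ^ 7 * l ^ 2 * (l + f + 2) < n ^ 2) :
    ∃ μ : SimpleGraph (Fin (2 * n)) → ℝ, (∀ G, 0 ≤ μ G) ∧ ∑ G, μ G = 1 ∧
      ∀ (d t : ℕ) (C : Circuit (Fin (2 * n) × Fin (2 * n))), C.size ≤ s →
        numFurther f C ≤ t → FurtherFanIn f d C →
        (n : ℝ) ^ 2 * ((∑ G, μ G * ind (C.eval (graphInput G) = true ↔ ∃ S, G.IsNClique n S))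
            - 1 / 2)
          ≤ 75313971201 * (lam : ℝ) ^ 7 * (l : ℝ) ^ 2 * (l + f + 2) * (d + 1) * 2 ^ t := by
  have hl1 : 1 ≤ l := le_trans hlam hl
  have hll : 1 ≤ lam * l := Nat.one_le_iff_ne_zero.2 (by positivity)
  set w := l + f + 2 with hw
  have hw1 : 1 ≤ w := by omega
  obtain ⟨b, hb1, hblam, hbn, h2b, h2b', hQ2, h4160⟩ := bits' (w := w) hn hl hlam (by omega) hbig
  set k := 2 * lam with hk
  set m := 128 * (lam * b * l) with hm
  set a := m + 2 * lam with ha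
  obtain ⟨hV1, hV2, hG, hrows, h4l⟩ := sizes' (k := k) hlam hn hl1 hblam h2b h4160 hm ha hk
  set u := n - (a * 2 + a * (2 * (b * k))) with hu
  have hcardG : Fintype.card (Grp a b k u) = n := by
    simp only [Grp, Fintype.card_sum, Fintype.card_prod, Fintype.card_fin, Fintype.card_bool]
    omega
  have hcardV : Fintype.card (Vtx a b k u) ≤ 2 * n := by
    simp only [Vtx, Fintype.card_sum, Fintype.card_prod, Fintype.card_fin, Fintype.card_bool,
      Fintype.card_fun, ZMod.card]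
    omega
  obtain ⟨φ⟩ : Nonempty (Vtx a b k u ↪ Fin (2 * n)) := by
    apply Function.Embedding.nonempty_of_card_le
    rw [Fintype.card_fin]
    exact hcardV
  have ha0 : 0 < a := by omega
  have hm0 : 0 < m := by
    rw [hm]
    have : 0 < lam * b * l := Nat.mul_pos (Nat.mul_pos hlam hb1) hl1
    omega
  haveI : Nonempty (Vtx a b k u) := ⟨.inl ((⟨0, ha0⟩, false), 0)⟩
  -- the code
  obtain ⟨S, hS⟩ := G.exists_sparse (R := G.Row a b) (k := k) (m := m) (2 * (4 * l) * (2 * b)) hm0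
    (by
      have : Fintype.card (G.Row a b) = a * (2 * b) := by
        simp [G.Row]
      rw [this]
      exact hrows)
    (by
      rw [hm, hk]
      apply le_of_eq
      ring)
  have hspread := spread_code (G.sparseCode S) (G.sparseCode_indep S hS)
  -- noise parameters
  set L := 16 * (lam * l) with hL
  have hL1 : L + 1 ≤ 17 * (lam * l) := by omega
  set q := 1024 * lam ^ 2 * (L + 1) * w with hqdef
  have hq0 : 0 < q := by positivity
  have hq17408 : q ≤ 17408 * (lam ^ 3 * w) * l := by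
    calc q ≤ 1024 * lam ^ 2 * (17 * (lam * l)) * w :=
          Nat.mul_le_mul_right _ (Nat.mul_le_mul_left _ hL1)
      _ = 17408 * (lam ^ 3 * w) * l := by ring
  set r := l * 2 ^ (2 * b) / q with hr
  have hr1 : 1 ≤ r := by
    rw [hr, Nat.le_div_iff_mul_le hq0, one_mul]
    calc q ≤ 17408 * (lam ^ 3 * w) * l := hq17408
      _ ≤ 2 ^ (2 * b) * l := Nat.mul_le_mul_right _ hQ2
      _ = l * 2 ^ (2 * b) := by ring
  have hrQ : r * q ≤ l * 2 ^ (2 * b) := Nat.div_mul_le_self _ _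
  have hrQ' : l * 2 ^ (2 * b) < (r + 1) * q := by
    have h1 := Nat.div_add_mod (l * 2 ^ (2 * b)) q
    have h2 := Nat.mod_lt (l * 2 ^ (2 * b)) hq0
    have h3 : (r + 1) * q = q * (l * 2 ^ (2 * b) / q) + q := by rw [hr]; ring
    rw [h3]
    omega
  set D := 2 * (r * (L + 1) * lam) with hD
  have hD0 : 0 < D := by positivity
  have hcov := G.covers_enNoise (X := Ground a b) hD0 (J := lam) (c := 4 * l) hlam (by omega)
  have hκ : (0 : ℝ) ≤ (1 / 2 : ℝ) ^ (2 * b) := pow_nonneg (by norm_num) _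
  have hlR : (1 : ℝ) ≤ l := by exact_mod_cast hl1
  have hwR : (w : ℝ) = l + f + 2 := by rw [hw]; push_cast; ring
  have hfR : (0 : ℝ) ≤ f := Nat.cast_nonneg f
  set Bκ : ℝ := 32 * (lam : ℝ) * D * (1 / 2 : ℝ) ^ (2 * b) with hBκdef
  have hBκ0 : 0 ≤ Bκ := by positivity
  have hBκw : 16 * (Bκ * w) ≤ l := by
    have h1 : ((r * q : ℕ) : ℝ) ≤ ((l * 2 ^ (2 * b) : ℕ) : ℝ) := by exact_mod_cast hrQ
    have h2 : (1 / 2 : ℝ) ^ (2 * b) * ((2 ^ (2 * b) : ℕ) : ℝ) = 1 := by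
      push_cast
      rw [← mul_pow]; norm_num
    have h3 : 16 * (32 * (lam : ℝ) * D * w) = ((r * q : ℕ) : ℝ) := by
      rw [hD, hqdef]
      push_cast
      ring
    have h4 : 16 * (Bκ * w) = ((r * q : ℕ) : ℝ) * (1 / 2 : ℝ) ^ (2 * b) := by
      rw [← h3, hBκdef]; ring
    rw [h4]
    calc ((r * q : ℕ) : ℝ) * (1 / 2 : ℝ) ^ (2 * b)
        ≤ ((l * 2 ^ (2 * b) : ℕ) : ℝ) * (1 / 2 : ℝ) ^ (2 * b) :=
          mul_le_mul_of_nonneg_right h1 hκ
      _ = l := by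
          push_cast at h2 ⊢
          linear_combination (l : ℝ) * h2
  have hBκ : 16 * Bκ ≤ 1 := by
    have h1 : 16 * (Bκ * l) ≤ 16 * (Bκ * w) := by
      have : (l : ℝ) ≤ w := by rw [hwR]; linarith
      have := mul_le_mul_of_nonneg_left this hBκ0
      linarith
    have h2 : (16 * Bκ) * l ≤ 1 * l := by linarith
    exact le_of_mul_le_mul_right h2 (by linarith)
  have hfw : 24 * (Bκ * ((f + 2 : ℕ) : ℝ)) ≤ ((4 * l : ℕ) : ℝ) := by
    have h1 : ((f + 2 : ℕ) : ℝ) ≤ w := by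
      rw [hwR]; push_cast; linarith
    have h2 := mul_le_mul_of_nonneg_left h1 hBκ0
    push_cast
    push_cast at h2
    linarith
  have hB1 : 1 ≤ 32 * (lam : ℝ) * D := by
    have h1 : (1 : ℝ) ≤ lam := by exact_mod_cast hlam
    have h2 : (1 : ℝ) ≤ D := by exact_mod_cast hD0
    nlinarith
  set N := G.enNoise (X := Ground a b) hD0 lam with hN
  have H : Hyp N (wordSet (G.sparseCode S)) L (4 * l) f (32 * (lam : ℝ) * D)
      ((1 / 2 : ℝ) ^ (2 * b)) :=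
    { hL := by omega
      hc := by omega
      hB1 := hB1
      hcov := hcov
      hκ := hκ
      hsp := hspread
      hBκ := hBκ
      hf := hfw }
  have hfew : ∀ j < r, N.iter (j * (L + 1))
      (fun U => ind (∃ ω, wordSet (G.sparseCode S) ω ⊆ U)) ≤ (1 / 2 : ℝ) ^ (2 * lam) := by
    intro j hj
    refine (G.few_enNoise hD0 lam (j * (L + 1)) (wordSet (G.sparseCode S))
      (card_wordSet (G.sparseCode S))).trans ?_
    rw [Fintype.card_fun, ZMod.card, Fintype.card_fin]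
    have h1 : ((j * (L + 1) * lam : ℕ) : ℝ) / (D : ℝ) ≤ 1 / 2 := by
      rw [div_le_iff₀ (by exact_mod_cast hD0)]
      have h2 : 2 * (j * (L + 1) * lam) ≤ D := by
        rw [hD]
        apply Nat.mul_le_mul_left
        apply Nat.mul_le_mul_right
        exact Nat.mul_le_mul_right _ hj.le
      have h3 : ((2 * (j * (L + 1) * lam) : ℕ) : ℝ) ≤ (D : ℝ) := by exact_mod_cast h2
      push_cast at h3 ⊢
      linarith
    calc (((2 ^ m : ℕ) : ℝ)) * (((j * (L + 1) * lam : ℕ) : ℝ) / (D : ℝ)) ^ a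
        ≤ ((2 ^ m : ℕ) : ℝ) * (1 / 2) ^ a := by
          apply mul_le_mul_of_nonneg_left _ (by positivity)
          exact pow_le_pow_left₀ (by positivity) h1 a
      _ = (1 / 2 : ℝ) ^ (2 * lam) := by
          rw [ha, pow_add]
          push_cast
          rw [← mul_assoc, ← mul_pow]
          norm_num
  have hr2' : r ≤ 2 ^ (2 * b) := by
    -- `q ≥ l`
    have h1 : l ≤ q := by
      rw [hqdef]
      calc l ≤ L + 1 := by
            have h4 : l ≤ lam * l := Nat.le_mul_of_pos_left _ hlam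
            omega
        _ = 1 * 1 * (L + 1) * 1 := by ring
        _ ≤ 1024 * lam ^ 2 * (L + 1) * w := by
            apply Nat.mul_le_mul _ hw1
            apply Nat.mul_le_mul_right
            exact Nat.mul_le_mul (by norm_num) (Nat.one_le_pow _ _ hlam)
    rw [hr]
    calc l * 2 ^ (2 * b) / q ≤ q * 2 ^ (2 * b) / q := Nat.div_le_div_right (Nat.mul_le_mul_right _ h1)
      _ = 2 ^ (2 * b) := Nat.mul_div_cancel_left _ hq0
  have hr2 : r < 2 ^ (2 * lam) := by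
    have h2 : 2 ^ (2 * b) = 2 ^ b * 2 ^ b := by rw [← pow_add]; congr 1; omega
    have h3 : 2 ^ (2 * lam) = 2 ^ lam * 2 ^ lam := by rw [← pow_add]; congr 1; omega
    rw [h3]
    calc r ≤ 2 ^ b * 2 ^ b := by rw [← h2]; exact hr2'
      _ ≤ n * n := Nat.mul_le_mul hbn hbn
      _ < 2 ^ lam * 2 ^ lam := Nat.mul_lt_mul_of_lt_of_lt hn hn
  have hn2 : n * n < 2 ^ (2 * lam) := by
    have h3 : 2 ^ (2 * lam) = 2 ^ lam * 2 ^ lam := by rw [← pow_add]; congr 1; omega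
    rw [h3]
    exact Nat.mul_lt_mul_of_lt_of_lt hn hn
  have hXcard : Fintype.card (Ground a b) + 1 ≤ 2 ^ (2 * lam) := by
    have h1 : Fintype.card (Ground a b) = a * 2 ^ (2 * b) := by
      simp [Ground, T9h34.Sym, ZMod.card]
    have h2 : 2 ^ (2 * b) = 2 ^ b * 2 ^ b := by rw [← pow_add]; congr 1; omega
    rw [h1, h2]
    have h4 : a * (2 ^ b * 2 ^ b) ≤ n * n := by
      calc a * (2 ^ b * 2 ^ b) = (a * 2 ^ b) * 2 ^ b := by ring
        _ ≤ n * n := by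
          apply Nat.mul_le_mul _ hbn
          calc a * 2 ^ b ≤ (a * 2 ^ b) * 4 := Nat.le_mul_of_pos_right _ (by norm_num)
            _ = (a * 2) * 2 ^ b * 2 := by ring
            _ ≤ n := hV1
    omega
  have herr := err_bound' (X := Ground a b) hl hlam hs hr2 hXcard
  -- the distribution
  set Φ : Finset (Ground a b) → SimpleGraph (Fin (2 * n)) := fun Z =>
    (G.graphOf (u := u) S Z).map φ with hΦ
  refine ⟨G.pushW N L r (wordSet (G.sparseCode S)) Φ, fun _ => G.pushW_nonneg _ _,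
    G.sum_pushW (by omega) Φ, ?_⟩
  intro d t C hCs hCt hCd
  rw [G.sum_pushW_mul]
  have hcl : ∀ Z : Finset (Ground a b), (∃ T, (Φ Z).IsNClique n T) ↔
      ∃ ω, wordSet (G.sparseCode S) ω ⊆ Z := by
    intro Z
    rw [hΦ]
    simp only
    rw [G.exists_clique_map, ← G.clique_iff (u := u) S (by omega) Z, hcardG]
  have hev : ∀ Z : Finset (Ground a b),
      C.eval (graphInput (Φ Z)) = (C.subst (G.proj S φ)).eval (chi Z) := by
    intro Z
    rw [Circuit.eval_subst, G.pull_proj]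
  simp only [hcl, hev]
  have hscore := score_le' H r s d t hfew (C.subst (G.proj S φ))
    (by rw [Circuit.size_subst]; exact hCs) (by rw [numFurther_subst]; exact hCt)
    (furtherFanIn_subst _ _ hCd)
  set sc := G.score N L r (wordSet (G.sparseCode S))
    (fun Z => ind ((C.subst (G.proj S φ)).eval (chi Z) = true ↔
      ∃ ω, wordSet (G.sparseCode S) ω ⊆ Z)) with hsc
  set T : ℝ := (2 : ℝ) ^ t * (1 + d) with hT
  have hT1 : 1 ≤ T := by
    have h1 : (1 : ℝ) ≤ 2 ^ t := one_le_pow₀ (by norm_num)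
    have h2 : (1 : ℝ) ≤ 1 + d := by linarith [(Nat.cast_nonneg d : (0 : ℝ) ≤ d)]
    calc (1 : ℝ) = 1 * 1 := by ring
      _ ≤ _ := mul_le_mul h1 h2 (by norm_num) (by linarith)
  have h3T : T * (3 + r * err (Ground a b) L (4 * l) s) ≤ T * 4 := by
    apply mul_le_mul_of_nonneg_left (by linarith) (by linarith)
  have hrpos : (0 : ℝ) < r := by exact_mod_cast hr1
  have h4 : sc / (2 * r) - 1 / 2 ≤ T * 4 / (2 * r) + (1 / 2) ^ (2 * lam) / 2 := by
    have h5 : sc ≤ r + T * 4 + r * (1 / 2) ^ (2 * lam) := by linarith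
    have h6 : sc / (2 * r) ≤ (r + T * 4 + r * (1 / 2) ^ (2 * lam)) / (2 * r) :=
      div_le_div_of_nonneg_right h5 (by linarith)
    have h7 : (r + T * 4 + r * (1 / 2) ^ (2 * lam)) / (2 * r)
        = 1 / 2 + (T * 4 / (2 * r) + (1 / 2) ^ (2 * lam) / 2) := by
      field_simp
      ring
    linarith
  have hQr : 2 ^ (2 * b) ≤ 34816 * (lam ^ 3 * w) * r := by
    have h1 : l * 2 ^ (2 * b) ≤ l * (34816 * (lam ^ 3 * w) * r) := by
      calc l * 2 ^ (2 * b) ≤ (r + 1) * q := hrQ'.le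
        _ ≤ (2 * r) * (17408 * (lam ^ 3 * w) * l) := Nat.mul_le_mul (by omega) hq17408
        _ = l * (34816 * (lam ^ 3 * w) * r) := by ring
    exact Nat.le_of_mul_le_mul_left h1 hl1
  have hn2r : n ^ 2 ≤ 37656985600 * lam ^ 7 * l ^ 2 * w * r := by
    calc n ^ 2 = n * n := by ring
      _ ≤ (2 ^ b * (1040 * lam ^ 2 * l)) * (2 ^ b * (1040 * lam ^ 2 * l)) :=
          Nat.mul_le_mul h2b'.le h2b'.le
      _ = 1081600 * (lam ^ 4 * l ^ 2) * 2 ^ (2 * b) := by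
          rw [two_mul b, pow_add]; ring
      _ ≤ 1081600 * (lam ^ 4 * l ^ 2) * (34816 * (lam ^ 3 * w) * r) := Nat.mul_le_mul_left _ hQr
      _ = 37656985600 * lam ^ 7 * l ^ 2 * w * r := by ring
  have hn2rR : (n : ℝ) ^ 2 ≤ 37656985600 * (lam : ℝ) ^ 7 * (l : ℝ) ^ 2 * w * r := by
    exact_mod_cast hn2r
  have h8 : (n : ℝ) ^ 2 * (T * 4 / (2 * r)) ≤
      75313971200 * (lam : ℝ) ^ 7 * (l : ℝ) ^ 2 * w * T := by
    have h9 : (n : ℝ) ^ 2 * (T * 4 / (2 * r))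
        ≤ (37656985600 * (lam : ℝ) ^ 7 * (l : ℝ) ^ 2 * w * r) * (T * 4 / (2 * r)) := by
      apply mul_le_mul_of_nonneg_right hn2rR
      apply div_nonneg <;> linarith
    have h10 : (37656985600 * (lam : ℝ) ^ 7 * (l : ℝ) ^ 2 * w * r) * (T * 4 / (2 * r))
        = 75313971200 * (lam : ℝ) ^ 7 * (l : ℝ) ^ 2 * w * T := by
      field_simp
      ring
    linarith
  have h11 : (n : ℝ) ^ 2 * ((1 / 2) ^ (2 * lam) / 2) ≤ 1 := by
    have h12 : (n : ℝ) ^ 2 ≤ 2 ^ (2 * lam) := by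
      have : n ^ 2 ≤ 2 ^ (2 * lam) := by rw [sq]; exact hn2.le
      exact_mod_cast this
    have h13 : (2 : ℝ) ^ (2 * lam) * (1 / 2) ^ (2 * lam) = 1 := by rw [← mul_pow]; norm_num
    have h14 : (n : ℝ) ^ 2 * (1 / 2) ^ (2 * lam) ≤ 2 ^ (2 * lam) * (1 / 2) ^ (2 * lam) :=
      mul_le_mul_of_nonneg_right h12 (pow_nonneg (by norm_num) _)
    linarith
  have h15 : (1 : ℝ) ≤ (lam : ℝ) ^ 7 * (l : ℝ) ^ 2 * w * T := by
    have h16 : (1 : ℝ) ≤ (lam : ℝ) ^ 7 := one_le_pow₀ (by exact_mod_cast hlam)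
    have h17 : (1 : ℝ) ≤ (l : ℝ) ^ 2 := one_le_pow₀ (by exact_mod_cast hl1)
    have h18 : (1 : ℝ) ≤ (lam : ℝ) ^ 7 * (l : ℝ) ^ 2 := by
      calc (1 : ℝ) = 1 * 1 := by ring
        _ ≤ _ := mul_le_mul h16 h17 (by norm_num) (by linarith)
    have h19 : (1 : ℝ) ≤ (lam : ℝ) ^ 7 * (l : ℝ) ^ 2 * w := by
      calc (1 : ℝ) = 1 * 1 := by ring
        _ ≤ _ := mul_le_mul h18 (by exact_mod_cast hw1) (by norm_num) (by linarith)
    calc (1 : ℝ) = 1 * 1 := by ring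
      _ ≤ _ := mul_le_mul h19 hT1 (by norm_num) (by linarith)
  calc (n : ℝ) ^ 2 * (sc / (2 * r) - 1 / 2)
      ≤ (n : ℝ) ^ 2 * (T * 4 / (2 * r) + (1 / 2) ^ (2 * lam) / 2) :=
        mul_le_mul_of_nonneg_left h4 (sq_nonneg _)
    _ = (n : ℝ) ^ 2 * (T * 4 / (2 * r)) + (n : ℝ) ^ 2 * ((1 / 2) ^ (2 * lam) / 2) := by ring
    _ ≤ 75313971200 * (lam : ℝ) ^ 7 * (l : ℝ) ^ 2 * w * T +
        (lam : ℝ) ^ 7 * (l : ℝ) ^ 2 * w * T := by
        linarith
    _ = 75313971201 * (lam : ℝ) ^ 7 * (l : ℝ) ^ 2 * (l + f + 2) * (d + 1) * 2 ^ t := by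
        rw [hT, hwR]; ring

end Pool.Agent.T9h35.Wide
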