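import Pool.Agent.T9h35.Wide.Chain
import Pool.Agent.T9h34.G.Average

/-!
The average-case form of the abstract lower bound, monotone gates of large fan-in.
-/

set_option autoImplicit false

namespace Pool.Agent.T9h35.Wide

open Finset Pool.Agent.T9h34

variable {X : Type*} [Fintype X] [DecidableEq X] {Ω : Type*} [Fintype Ω] {N : G.NoiseOp X}

variable {L c f : ℕ} {B κ : ℝ} {v : Ω → Finset X}

theorem score_le' [Nonempty Ω] (H : Hyp N v L c f B κ)
    (r s d t : ℕ) {η : ℝ}
    (hfew : ∀ j < r, N.iter (j * (L + 1)) (fun U => ind (∃ ω, v ω ⊆ U)) ≤ η)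
    (C : Circuit X) (hs : C.size ≤ s) (ht : numFurther f C ≤ t) (hd : FurtherFanIn f d C) :
    G.score N L r v (fun Z => ind (C.eval (chi Z) = true ↔ ∃ ω, v ω ⊆ Z))
      ≤ r + (2 : ℝ) ^ t * (1 + d) * (3 + r * err X L c s)
        + r * η := by
  have hup := Mf_circuit' H r s d (numFurther f C) C rfl hs hd
  have hpt : ∀ U : Finset X, ind (C.eval (chi U) = true ↔ ∃ ω, v ω ⊆ U)
      + Ev v (fun V => ind (C.eval (chi (U ∪ V)) = true ↔ ∃ ω, v ω ⊆ U ∪ V))
      ≤ 1 + (Ev v (fun V => ind (C.eval (chi U) ≠ C.eval (chi (U ∪ V))))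
        + ind (∃ ω, v ω ⊆ U)) := by
    intro U
    by_cases hU : ∃ ω, v ω ⊆ U
    · rw [ind_of hU]
      have h2 := Ev_nonneg v (F := fun V => ind (C.eval (chi U) ≠ C.eval (chi (U ∪ V))))
        (fun z => ind_nonneg _)
      have h3 := ind_le_one (C.eval (chi U) = true ↔ ∃ ω, v ω ⊆ U)
      have h4 := Ev_le_one v
        (F := fun V => ind (C.eval (chi (U ∪ V)) = true ↔ ∃ ω, v ω ⊆ U ∪ V))
        (fun z => ind_le_one _)
      linarith
    · have h2 : 0 ≤ ind (∃ ω, v ω ⊆ U) := ind_nonneg _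
      have h3 : ind (C.eval (chi U) = true ↔ ∃ ω, v ω ⊆ U)
          + Ev v (fun V => ind (C.eval (chi (U ∪ V)) = true ↔ ∃ ω, v ω ⊆ U ∪ V))
          ≤ Ev v (fun V => 1 + ind (C.eval (chi U) ≠ C.eval (chi (U ∪ V)))) := by
        rw [← Ev_const v (ind (C.eval (chi U) = true ↔ ∃ ω, v ω ⊆ U)), ← Ev_add]
        apply Ev_mono'
        intro ω
        have hW : ∃ ω', v ω' ⊆ U ∪ v ω := ⟨ω, Finset.subset_union_right⟩
        by_cases hne : C.eval (chi U) ≠ C.eval (chi (U ∪ v ω))
        · rw [ind_of hne]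
          have h5 := ind_le_one (C.eval (chi U) = true ↔ ∃ ω, v ω ⊆ U)
          have h6 := ind_le_one (C.eval (chi (U ∪ v ω)) = true ↔ ∃ ω', v ω' ⊆ U ∪ v ω)
          linarith
        · rw [ind_not hne]
          push Not at hne
          by_cases hc : C.eval (chi U) = true
          · rw [ind_not (p := C.eval (chi U) = true ↔ ∃ ω, v ω ⊆ U)
              (fun h => hU (h.1 hc))]
            have h6 := ind_le_one (C.eval (chi (U ∪ v ω)) = true ↔ ∃ ω', v ω' ⊆ U ∪ v ω)
            linarith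
          · rw [ind_not (p := C.eval (chi (U ∪ v ω)) = true ↔ ∃ ω', v ω' ⊆ U ∪ v ω)
              (fun h => hc (by rw [hne]; exact h.2 hW))]
            have h5 := ind_le_one (C.eval (chi U) = true ↔ ∃ ω, v ω ⊆ U)
            linarith
      rw [Ev_add, Ev_const] at h3
      linarith
  have hstep : ∀ j ∈ Finset.range r, N.iter (j * (L + 1))
      (fun U => ind (C.eval (chi U) = true ↔ ∃ ω, v ω ⊆ U)
        + Ev v (fun V => ind (C.eval (chi (U ∪ V)) = true ↔ ∃ ω, v ω ⊆ U ∪ V)))
      ≤ 1 + (N.iter (j * (L + 1)) (fun U => Ev v (fun V => ind (C.eval (chi U) ≠ C.eval (chi (U ∪ V)))))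
        + η) := by
    intro j hj
    rw [Finset.mem_range] at hj
    refine le_trans (N.iter_mono _ hpt) ?_
    rw [N.iter_add, N.iter_const, N.iter_add]
    have h3 := hfew j hj
    linarith
  unfold G.score
  refine le_trans (Finset.sum_le_sum hstep) ?_
  rw [Finset.sum_add_distrib, Finset.sum_add_distrib, Finset.sum_const, Finset.sum_const,
    Finset.card_range, nsmul_eq_mul, nsmul_eq_mul, mul_one]
  have hγ0 : 0 ≤ 3 + r * err X L c s := by
    have := err_nonneg (X := X) (L := L) (c := c) (s := s)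
    positivity
  have h5 : ((2 : ℝ) ^ numFurther f C * (1 + d) - d) * (3 + r * err X L c s)
      ≤ (2 : ℝ) ^ t * (1 + d) * (3 + r * err X L c s) := by
    apply mul_le_mul_of_nonneg_right _ hγ0
    have h6 : (0 : ℝ) ≤ d := by positivity
    have h7 : (2 : ℝ) ^ numFurther f C ≤ 2 ^ t := pow_le_pow_right₀ (by norm_num) ht
    nlinarith
  unfold G.Mf at hup
  linarith

end Pool.Agent.T9h35.Wide
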