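import Pool.Agent.T9h35.Wide.Approx

/-!
The chain argument for monotone gates of large fan-in and few further gates.
-/

set_option autoImplicit false

namespace Pool.Agent.T9h35.Wide

open Finset Pool.Agent.T9h34

variable {X : Type*} [Fintype X] [DecidableEq X] {Ω : Type*} [Fintype Ω] {N : G.NoiseOp X}

/-- The error term of the domination lemma for circuits of size at most `s`. -/
noncomputable def err (X : Type*) [Fintype X] [DecidableEq X] (L c s : ℕ) : ℝ :=
  s * (1 / 2 : ℝ) ^ c +
    3 * ((s + Fintype.card X) * (((smalls (X := X) c).card : ℝ) * (1 / 2 : ℝ) ^ L))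

theorem err_mono {L c s s' : ℕ} (h : s ≤ s') : err X L c s ≤ err X L c s' := by
  unfold err
  have h1 : (s : ℝ) ≤ s' := by exact_mod_cast h
  have h2 : (0 : ℝ) ≤ (1 / 2) ^ c := by positivity
  have h3 : (0 : ℝ) ≤ ((smalls (X := X) c).card : ℝ) * (1 / 2 : ℝ) ^ L := by positivity
  have h4 := mul_le_mul_of_nonneg_right h1 h2
  have h5 := mul_le_mul_of_nonneg_right (add_le_add_left h1 (Fintype.card X : ℝ)) h3
  linarith

theorem err_nonneg {L c s : ℕ} : 0 ≤ err X L c s := by
  unfold err
  positivity

variable {L c f : ℕ} {B κ : ℝ} {v : Ω → Finset X}

/-- A circuit of monotone gates separates few of the pairs. -/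
theorem Mf_mono_circuit' (H : Hyp N v L c f B κ) (r : ℕ) (C : Circuit X)
    (hm : ∀ g ∈ C.gates, MonoFanIn f g) {s : ℕ} (hs : C.size ≤ s) :
    G.Mf N L r v (fun U W => ind (C.eval (chi U) ≠ C.eval (chi W))) ≤ 3 + r * err X L c s := by
  set F : Finset X → ℝ := fun U => ind (C.eval (chi U) = true) with hF
  have hstep : ∀ j : ℕ, N.iter (j * (L + 1))
      (fun U => Ev v (fun V => ind (C.eval (chi U) ≠ C.eval (chi (U ∪ V)))))
      ≤ 3 * (N.iter ((j + 1) * (L + 1)) F - N.iter (j * (L + 1)) F) + err X L c s := by
    intro j
    have hpt : ∀ U : Finset X, Ev v (fun V => ind (C.eval (chi U) ≠ C.eval (chi (U ∪ V))))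
        ≤ 3 * (N.iter (L + 1) (fun W => F (U ∪ W)) - F U) + err X L c s := by
      intro U
      by_cases hU : C.eval (chi U) = true
      · have h1 : ∀ W : Finset X, C.eval (chi (U ∪ W)) = true := by
          intro W
          refine eval_mono' (f := f) ?_ C hm hU
          intro i hi
          simp only [chi, decide_eq_true_eq] at hi ⊢
          exact Finset.mem_union_left _ hi
        have h2 : (fun V : Finset X => ind (C.eval (chi U) ≠ C.eval (chi (U ∪ V))))
            = fun _ => (0 : ℝ) * 1 := by
          funext V
          rw [ind_not, zero_mul]
          rw [hU, h1 V]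
          simp
        rw [h2, Ev_const_mul, zero_mul]
        have h3 : (fun W : Finset X => F (U ∪ W)) = fun _ => 1 := by
          funext W
          exact ind_of (h1 W)
        rw [h3, N.iter_const]
        have h4 : F U = 1 := ind_of hU
        rw [h4]
        have := err_nonneg (X := X) (L := L) (c := c) (s := s)
        linarith
      · have hU' : C.eval (chi U) = false := by simpa using hU
        -- the restricted circuit
        set σ : X → X ⊕ Bool := fun i => if i ∈ U then Sum.inr true else Sum.inl i with hσ
        have hpull : ∀ V : Finset X, pull σ (chi V) = chi (U ∪ V) := by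
          intro V
          funext i
          simp only [pull, hσ, chi]
          by_cases hi : i ∈ U
          · simp [hi]
          · simp [hi, chi]
        have hev : ∀ V : Finset X, (C.subst σ).eval (chi V) = C.eval (chi (U ∪ V)) := by
          intro V
          rw [Circuit.eval_subst, hpull]
        have hm' : ∀ g ∈ (C.subst σ).gates, MonoFanIn f g := by
          intro g hg
          simp only [Circuit.subst, List.mem_map] at hg
          obtain ⟨g', hg', rfl⟩ := hg
          exact (monoFanIn_subst σ g').2 (hm g' hg')
        have hdom := domination' H (C.subst σ) hm'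
        simp only [hev] at hdom
        rw [Circuit.size_subst] at hdom
        have h1 : Ev v (fun V => ind (C.eval (chi U) ≠ C.eval (chi (U ∪ V))))
            ≤ Ev v (fun V => ind (C.eval (chi (U ∪ V)) = true)) := by
          apply Ev_mono
          intro V
          apply ind_mono
          intro h
          rw [hU'] at h
          simpa using h.symm
        have h2 : F U = 0 := ind_not hU
        have h3 := err_mono (X := X) (L := L) (c := c) hs
        unfold err at h3
        rw [h2]
        unfold err
        linarith
    refine le_trans (N.iter_mono _ hpt) ?_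
    rw [N.iter_add, N.iter_const, N.iter_const_mul, N.iter_sub]
    have : (j + 1) * (L + 1) = j * (L + 1) + (L + 1) := by ring
    rw [this, N.iter_add_rounds (j * (L + 1)) (L + 1) F]
  unfold G.Mf
  refine le_trans (Finset.sum_le_sum (fun j _ => hstep j)) ?_
  rw [Finset.sum_add_distrib, ← Finset.mul_sum,
    Finset.sum_range_sub (fun j => N.iter (j * (L + 1)) F)]
  have h1 : N.iter (r * (L + 1)) F ≤ 1 := N.iter_le_one _ (fun z => ind_le_one _)
  have h2 : 0 ≤ N.iter (0 * (L + 1)) F := N.iter_nonneg _ (fun z => ind_nonneg _)
  rw [Finset.sum_const, Finset.card_range, nsmul_eq_mul]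
  linarith

/-- The induction on the number of further gates. -/
theorem Mf_circuit' (H : Hyp N v L c f B κ) (r s d : ℕ) (t : ℕ) (C : Circuit X)
    (ht : numFurther f C = t) (hs : C.size ≤ s) (hd : FurtherFanIn f d C) :
    G.Mf N L r v (fun U W => ind (C.eval (chi U) ≠ C.eval (chi W)))
      ≤ ((2 : ℝ) ^ t * (1 + d) - d) * (3 + r * err X L c s) := by
  classical
  induction t generalizing C with
  | zero =>
    have hm : ∀ g ∈ C.gates, MonoFanIn f g := by
      intro g hg
      unfold numFurther at ht
      rw [List.countP_eq_zero] at ht
      have := ht g hg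
      simpa using this
    have := Mf_mono_circuit' H r C hm hs
    rw [pow_zero, one_mul, add_sub_cancel_right, one_mul]
    exact this
  | succ t ih =>
    obtain ⟨pre, args, φ, post, hgs, hpre, hnot⟩ := exists_first (f := f) C.gates (by
      unfold numFurther at ht; omega)
    set γ := 3 + r * err X L c s with hγ
    have hγ0 : 0 ≤ γ := by
      have := err_nonneg (X := X) (L := L) (c := c) (s := s)
      positivity
    set Cb : Bool → Circuit X := fun b => ⟨pre ++ constGate b :: post, C.out⟩ with hCb
    have hlen : ∀ b, (Cb b).size ≤ s := by
      intro b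
      have : (Cb b).size = C.size := by
        simp only [Circuit.size, hCb, hgs, List.length_append, List.length_cons]
      omega
    have hnum : ∀ b, numFurther f (Cb b) = t := by
      intro b
      unfold numFurther at ht ⊢
      rw [hgs] at ht
      simp only [hCb] at ht ⊢
      rw [List.countP_append, List.countP_cons_of_pos (by simpa using hnot)] at ht
      rw [List.countP_append, List.countP_cons_of_neg (by simpa using monoFanIn_const f b)]
      omega
    have hfan : ∀ b, FurtherFanIn f d (Cb b) := by
      intro b args' φ' hmem
      simp only [hCb, List.mem_append, List.mem_cons] at hmem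
      apply hd args' φ'
      rw [hgs]
      rcases hmem with h | h | h
      · exact List.mem_append_left _ h
      · exact absurd h (by simp [constGate])
      · exact List.mem_append_right _ (List.mem_cons_of_mem _ h)
    have hargs : args.length ≤ d := hd args φ (by rw [hgs]; simp) hnot
    have hpt : ∀ U W : Finset X, ind (C.eval (chi U) ≠ C.eval (chi W))
        ≤ (args.map (fun a => ind ((⟨pre, a⟩ : Circuit X).eval (chi U)
              ≠ (⟨pre, a⟩ : Circuit X).eval (chi W)))).sum
          + (ind ((Cb false).eval (chi U) ≠ (Cb false).eval (chi W))
            + ind ((Cb true).eval (chi U) ≠ (Cb true).eval (chi W))) := by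
      intro U W
      by_cases hall : ∀ a ∈ args, (⟨pre, a⟩ : Circuit X).eval (chi U)
          = (⟨pre, a⟩ : Circuit X).eval (chi W)
      · set b := φ (args.map (fun a => a.eval (chi U) (runGates (chi U) pre))) with hb
        have hb' : φ (args.map (fun a => a.eval (chi W) (runGates (chi W) pre))) = b := by
          rw [hb]
          congr 1
          apply List.map_congr_left
          intro a ha
          exact (hall a ha).symm
        have hrun : ∀ Z : Finset X,
            φ (args.map (fun a => a.eval (chi Z) (runGates (chi Z) pre))) = b →
            C.eval (chi Z) = (Cb b).eval (chi Z) := by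
          intro Z hZ
          unfold Circuit.eval
          simp only [hCb]
          rw [hgs, runGates_split, runGates_split]
          have h1 : (Gate.other args φ : Gate X).eval (chi Z) (runGates (chi Z) pre) = b := hZ
          rw [h1, constGate_eval]
        have hU := hrun U hb.symm
        have hW := hrun W hb'
        rw [hU, hW]
        have hsum : 0 ≤ (args.map (fun a => ind ((⟨pre, a⟩ : Circuit X).eval (chi U)
              ≠ (⟨pre, a⟩ : Circuit X).eval (chi W)))).sum := by
          apply List.sum_nonneg
          intro y hy
          simp only [List.mem_map] at hy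
          obtain ⟨a, _, rfl⟩ := hy
          exact ind_nonneg _
        have h0 := ind_nonneg ((Cb false).eval (chi U) ≠ (Cb false).eval (chi W))
        have h1 := ind_nonneg ((Cb true).eval (chi U) ≠ (Cb true).eval (chi W))
        cases b <;> linarith
      · push Not at hall
        obtain ⟨a, ha, hne⟩ := hall
        have h1 : (1 : ℝ) ≤ (args.map (fun a => ind ((⟨pre, a⟩ : Circuit X).eval (chi U)
              ≠ (⟨pre, a⟩ : Circuit X).eval (chi W)))).sum := by
          rw [← ind_of hne]
          apply List.single_le_sum
          · intro y hy
            simp only [List.mem_map] at hy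
            obtain ⟨a, _, rfl⟩ := hy
            exact ind_nonneg _
          · exact List.mem_map.2 ⟨a, ha, rfl⟩
        have h0 := ind_nonneg ((Cb false).eval (chi U) ≠ (Cb false).eval (chi W))
        have h2 := ind_nonneg ((Cb true).eval (chi U) ≠ (Cb true).eval (chi W))
        have h3 := ind_le_one (C.eval (chi U) ≠ C.eval (chi W))
        linarith
    refine le_trans (G.Mf_mono L r v hpt) ?_
    rw [G.Mf_add, G.Mf_add]
    have h1 : G.Mf N L r v (fun U W => (args.map (fun a => ind ((⟨pre, a⟩ : Circuit X).eval (chi U)
              ≠ (⟨pre, a⟩ : Circuit X).eval (chi W)))).sum) ≤ args.length * γ := by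
      apply G.Mf_list
      intro a _
      apply Mf_mono_circuit' H r ⟨pre, a⟩ hpre
      have : C.size = pre.length + (post.length + 1) := by
        simp only [Circuit.size, hgs, List.length_append, List.length_cons]
      have h2 : (⟨pre, a⟩ : Circuit X).size = pre.length := rfl
      omega
    have h2 := ih (Cb false) (hnum false) (hlen false) (hfan false)
    have h3 := ih (Cb true) (hnum true) (hlen true) (hfan true)
    have h4 : (args.length : ℝ) * γ ≤ d * γ := by
      apply mul_le_mul_of_nonneg_right _ hγ0
      exact_mod_cast hargs
    rw [pow_succ]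
    linarith

end Pool.Agent.T9h35.Wide
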