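import Pool.Agent.T9h34.NegCircuit

/-!
Monotone gates of large fan-in.
-/

set_option autoImplicit false

namespace Pool.Agent.T9h35.Wide

open Pool.Agent.T9h34

/-- `φ` is a monotone function of the list of values it reads: it stays true if some of the values
are changed from false to true. -/
def MonoFun (φ : List Bool → Bool) : Prop :=
  ∀ u v : List Bool, List.Forall₂ (· ≤ ·) u v → φ u = true → φ v = true

/-- Gates which compute a monotone function of at most `f` values; AND and OR gates are always
included. -/
def MonoFanIn {ι : Type*} (f : ℕ) : Gate ι → Prop
  | .and _ _ => True
  | .or _ _ => True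
  | .other args φ => args.length ≤ f ∧ MonoFun φ

open Classical in
/-- The number of further gates: those which do not compute a monotone function of at most `f`
values. -/
noncomputable def numFurther {ι : Type*} (f : ℕ) (C : Circuit ι) : ℕ :=
  C.gates.countP (fun g => decide (¬ MonoFanIn f g))

/-- The further gates read at most `d` values. -/
def FurtherFanIn {ι : Type*} (f d : ℕ) (C : Circuit ι) : Prop :=
  ∀ args φ, Gate.other args φ ∈ C.gates → ¬ MonoFanIn f (.other args φ) → args.length ≤ d

end Pool.Agent.T9h35.Wide
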