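import Pool.Agent.T9h35.Wide.Rel

/-!
A spread random set which covers some families of a list contains, with high probability, one small
set lying in all of them.
-/

set_option autoImplicit false

namespace Pool.Agent.T9h35.Wide

open Finset Pool.Agent.T9h34

variable {X : Type*} [Fintype X] [DecidableEq X] {N : G.NoiseOp X} {Ω : Type*} [Fintype Ω]

/-- `Z` contains `U`, but no small set between `U` and `Z` lies in all families of the list which
cover `Z`. -/
def Bad (c : ℕ) (l : List (Finset (Finset X))) (U Z : Finset X) : Prop :=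
  U ⊆ Z ∧ ¬ ∃ S : Finset X, U ⊆ S ∧ S ⊆ Z ∧ S.card ≤ c ∧ ∀ 𝒮 ∈ l, cov 𝒮 Z → S ∈ 𝒮

theorem not_bad_nil {c : ℕ} {U Z : Finset X} (hU : U.card ≤ c) : ¬ Bad c [] U Z := by
  rintro ⟨h1, h2⟩
  exact h2 ⟨U, le_refl _, h1, hU, by simp⟩

theorem bad_cons {L c : ℕ} {𝒮 : Finset (Finset X)} {l : List (Finset (Finset X))}
    (hcl : G.Closed N L c 𝒮) (hsm : 𝒮 ⊆ smalls c) {U Z : Finset X} (hUc : U.card ≤ c)
    (h : Bad c (𝒮 :: l) U Z) :
    Bad c l U Z ∨
      (∃ δ ∈ Finset.Icc 1 c, ∃ S ∈ relMinsAt 𝒮 U (U.card + δ) U,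
        U.card + δ ≤ c ∧ Bad c l S Z) ∨
      (∃ J ∈ U.powerset, ∃ δ ∈ Finset.Icc 1 c, ∃ W ∈ relMinsAt 𝒮 ∅ (J.card + δ) J,
        c < U.card + δ ∧ J.card + δ ≤ c ∧ (U ∪ W).card = U.card + δ ∧ U ∪ W ⊆ Z) := by
  obtain ⟨hUZ, hno⟩ := h
  by_cases h1 : U ∈ 𝒮 ∨ ¬ cov 𝒮 Z
  · left
    refine ⟨hUZ, ?_⟩
    rintro ⟨S, hUS, hSZ, hSc, hS⟩
    apply hno
    refine ⟨S, hUS, hSZ, hSc, ?_⟩
    intro 𝒮' h𝒮' hcov
    rcases List.mem_cons.1 h𝒮' with rfl | h𝒮'
    · rcases h1 with h1 | h1
      · exact closed_up hcl h1 hUS hSc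
      · exact absurd hcov h1
    · exact hS 𝒮' h𝒮' hcov
  · push Not at h1
    obtain ⟨hU, hcovZ⟩ := h1
    right
    obtain ⟨W0, hW0, hW0Z⟩ := hcovZ
    obtain ⟨W, hW, _, hWW0, hWmin⟩ := exists_relMin hW0 (Finset.empty_subset W0)
    have hWZ : W ⊆ Z := hWW0.trans hW0Z
    have hWc : W.card ≤ c := mem_smalls.1 (hsm hW)
    by_cases hbig : c < (U ∪ W).card
    · right
      have hc1 : (U ∪ W).card = U.card + (W \ U).card := by
        rw [← Finset.union_sdiff_self_eq_union]
        exact Finset.card_union_of_disjoint Finset.disjoint_sdiff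
      have hc2 : (W \ U).card + (W ∩ U).card = W.card := Finset.card_sdiff_add_card_inter W U
      refine ⟨W ∩ U, Finset.mem_powerset.2 Finset.inter_subset_right, (W \ U).card, ?_, W, ?_,
        by omega, by omega, hc1, Finset.union_subset hUZ hWZ⟩
      · rw [Finset.mem_Icc]
        refine ⟨?_, by omega⟩
        rw [Nat.one_le_iff_ne_zero]
        intro h0
        rw [Finset.card_eq_zero, Finset.sdiff_eq_empty_iff_subset] at h0
        have h2 : U ∪ W = U := Finset.union_eq_left.2 h0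
        rw [h2] at hbig
        omega
      · rw [relMinsAt, Finset.mem_filter]
        exact ⟨hW, hWmin, by omega, Finset.inter_subset_left⟩
    · left
      push Not at hbig
      have hUW : U ∪ W ∈ 𝒮 := closed_up hcl hW Finset.subset_union_right hbig
      obtain ⟨S, hS, hUS, hSUW, hSmin⟩ := exists_relMin hUW Finset.subset_union_left
      have hSZ : S ⊆ Z := hSUW.trans (Finset.union_subset hUZ hWZ)
      have hSc : S.card ≤ c := mem_smalls.1 (hsm hS)
      have hlt : U.card < S.card := by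
        apply Finset.card_lt_card
        rw [Finset.ssubset_iff_subset_ne]
        refine ⟨hUS, ?_⟩
        rintro rfl
        exact hU hS
      refine ⟨S.card - U.card, ?_, S, ?_, by omega, hSZ, ?_⟩
      · rw [Finset.mem_Icc]; omega
      · rw [relMinsAt, Finset.mem_filter]
        exact ⟨hS, hSmin, by omega, hUS⟩
      · rintro ⟨T, hST, hTZ, hTc, hT⟩
        apply hno
        refine ⟨T, hUS.trans hST, hTZ, hTc, ?_⟩
        intro 𝒮' h𝒮' hcov
        rcases List.mem_cons.1 h𝒮' with rfl | h𝒮'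
        · exact closed_up hcl hS hST hTc
        · exact hT 𝒮' h𝒮' hcov

theorem ind_exists_le' {α : Type*} (s : Finset α) (p : α → Prop) :
    ind (∃ a ∈ s, p a) ≤ ∑ a ∈ s, ind (p a) := by
  by_cases h : ∃ a ∈ s, p a
  · rw [ind_of h]
    obtain ⟨a, ha, hp⟩ := h
    have h1 : ind (p a) ≤ ∑ a ∈ s, ind (p a) :=
      Finset.single_le_sum (f := fun a => ind (p a)) (fun b _ => ind_nonneg _) ha
    rwa [ind_of hp] at h1
  · rw [ind_not h]
    exact Finset.sum_nonneg fun b _ => ind_nonneg _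

/-- A spread random set which covers some families of a list contains, with high probability, one
small set lying in all of them. -/
theorem Ev_bad_le {L c : ℕ} {B : ℝ} (hL : 0 < L) (hB1 : 1 ≤ B) (hcov : G.Covers N c B)
    (v : Ω → Finset X) {ρ y g : ℝ} (hρ0 : 0 ≤ ρ) (hρ1 : ρ ≤ 1) (hy : 0 ≤ y)
    (hsp : Spread v (2 * c) (ρ * y)) (hg : g = ∑ δ ∈ Finset.Icc 1 c, (2 * B * y) ^ δ)
    (l : List (Finset (Finset X))) (hl : ∀ 𝒮 ∈ l, G.Closed N L c 𝒮 ∧ 𝒮 ⊆ smalls c) :
    ∀ U : Finset X, U.card ≤ c → Ev v (fun Z => ind (Bad c l U Z)) ≤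
      ρ ^ c * (2 * y) ^ U.card * ((1 + g) ^ l.length - 1) := by
  have hB0 : 0 ≤ B := by linarith
  have hg0 : 0 ≤ g := by
    rw [hg]
    exact Finset.sum_nonneg fun δ _ => by positivity
  induction l with
  | nil =>
    intro U hU
    have h1 : (fun Z : Finset X => ind (Bad c [] U Z)) = fun _ => (0 : ℝ) * 1 := by
      funext Z
      rw [ind_not (not_bad_nil hU)]; ring
    rw [h1, Ev_const_mul]
    simp
  | cons 𝒮 l ih =>
    intro U hU
    obtain ⟨hcl, hsm⟩ := hl 𝒮 (by simp)
    have hl' : ∀ 𝒮 ∈ l, G.Closed N L c 𝒮 ∧ 𝒮 ⊆ smalls c := fun 𝒮' h => hl 𝒮' (by simp [h])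
    have ih' := ih hl'
    set A : ℝ := (1 + g) ^ l.length - 1 with hA
    have hA0 : 0 ≤ A := by
      have : (1 : ℝ) ≤ (1 + g) ^ l.length := one_le_pow₀ (by linarith)
      linarith
    have hρc : 0 ≤ ρ ^ c := by positivity
    have h2y : 0 ≤ (2 * y) ^ U.card := by positivity
    have hpt : ∀ Z : Finset X, ind (Bad c (𝒮 :: l) U Z) ≤ ind (Bad c l U Z) +
        ((∑ δ ∈ Finset.Icc 1 c, ∑ S ∈ relMinsAt 𝒮 U (U.card + δ) U,
          ind (U.card + δ ≤ c ∧ Bad c l S Z)) +
        ∑ J ∈ U.powerset, ∑ δ ∈ Finset.Icc 1 c, ∑ W ∈ relMinsAt 𝒮 ∅ (J.card + δ) J,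
          ind (c < U.card + δ ∧ J.card + δ ≤ c ∧ (U ∪ W).card = U.card + δ ∧ U ∪ W ⊆ Z)) := by
      intro Z
      refine (ind_mono (bad_cons hcl hsm hU)).trans ?_
      refine (ind_or_le _ _).trans ?_
      refine add_le_add (le_refl _) ?_
      refine (ind_or_le _ _).trans ?_
      refine add_le_add ?_ ?_
      · refine (ind_exists_le' _ _).trans (Finset.sum_le_sum fun δ _ => ?_)
        exact ind_exists_le' _ _
      · refine (ind_exists_le' _ _).trans (Finset.sum_le_sum fun J _ => ?_)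
        refine (ind_exists_le' _ _).trans (Finset.sum_le_sum fun δ _ => ?_)
        exact ind_exists_le' _ _
    refine (Ev_mono v hpt).trans ?_
    rw [Ev_add, Ev_add, Ev_sum, Ev_sum]
    -- the small sets
    have hsmall : ∑ δ ∈ Finset.Icc 1 c, Ev v (fun Z => ∑ S ∈ relMinsAt 𝒮 U (U.card + δ) U,
          ind (U.card + δ ≤ c ∧ Bad c l S Z)) ≤ ρ ^ c * (2 * y) ^ U.card * (g * A) := by
      have h1 : ∀ δ ∈ Finset.Icc 1 c, Ev v (fun Z => ∑ S ∈ relMinsAt 𝒮 U (U.card + δ) U,
          ind (U.card + δ ≤ c ∧ Bad c l S Z)) ≤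
            (ρ ^ c * (2 * y) ^ U.card * A) * (2 * B * y) ^ δ := by
        intro δ _
        rw [Ev_sum]
        by_cases hδ : U.card + δ ≤ c
        · have h2 : ∀ S ∈ relMinsAt 𝒮 U (U.card + δ) U,
              Ev v (fun Z => ind (U.card + δ ≤ c ∧ Bad c l S Z)) ≤
                ρ ^ c * (2 * y) ^ (U.card + δ) * A := by
            intro S hS
            have hSc : S.card = U.card + δ := by
              rw [relMinsAt, Finset.mem_filter] at hS
              exact hS.2.2.1
            have h3 := ih' S (by omega)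
            rw [hSc] at h3
            refine le_trans (Ev_mono v fun Z => ind_mono ?_) h3
            exact fun h => h.2
          refine (Finset.sum_le_sum h2).trans ?_
          rw [Finset.sum_const, nsmul_eq_mul]
          have h3 := card_relMinsAt_le hL hB1 hcov hcl hδ U U (le_refl _)
          rw [Nat.add_sub_cancel_left] at h3
          have h4 : 0 ≤ ρ ^ c * (2 * y) ^ (U.card + δ) * A := by positivity
          refine (mul_le_mul_of_nonneg_right h3 h4).trans (le_of_eq ?_)
          rw [pow_add, mul_pow (2 * B) y, mul_pow 2 B, mul_pow 2 y δ]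
          ring
        · have h2 : ∀ S ∈ relMinsAt 𝒮 U (U.card + δ) U,
              Ev v (fun Z => ind (U.card + δ ≤ c ∧ Bad c l S Z)) = 0 := by
            intro S _
            have h3 : (fun Z : Finset X => ind (U.card + δ ≤ c ∧ Bad c l S Z))
                = fun _ => (0 : ℝ) * 1 := by
              funext Z
              rw [ind_not (fun h => hδ h.1)]; ring
            rw [h3, Ev_const_mul, zero_mul]
          rw [Finset.sum_eq_zero h2]
          positivity
      refine (Finset.sum_le_sum h1).trans (le_of_eq ?_)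
      rw [← Finset.mul_sum, ← hg]
      ring
    -- the large sets
    have hlarge : ∑ J ∈ U.powerset, Ev v (fun Z => ∑ δ ∈ Finset.Icc 1 c,
          ∑ W ∈ relMinsAt 𝒮 ∅ (J.card + δ) J,
          ind (c < U.card + δ ∧ J.card + δ ≤ c ∧ (U ∪ W).card = U.card + δ ∧ U ∪ W ⊆ Z)) ≤
            ρ ^ c * (2 * y) ^ U.card * g := by
      have h1 : ∀ J ∈ U.powerset, Ev v (fun Z => ∑ δ ∈ Finset.Icc 1 c,
          ∑ W ∈ relMinsAt 𝒮 ∅ (J.card + δ) J,
          ind (c < U.card + δ ∧ J.card + δ ≤ c ∧ (U ∪ W).card = U.card + δ ∧ U ∪ W ⊆ Z)) ≤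
            ρ ^ c * y ^ U.card * g := by
        intro J _
        rw [Ev_sum, hg, Finset.mul_sum]
        refine Finset.sum_le_sum fun δ hδ => ?_
        rw [Finset.mem_Icc] at hδ
        rw [Ev_sum]
        by_cases hcond : c < U.card + δ ∧ J.card + δ ≤ c
        · have h2 : ∀ W ∈ relMinsAt 𝒮 ∅ (J.card + δ) J, Ev v (fun Z => ind (c < U.card + δ ∧
              J.card + δ ≤ c ∧ (U ∪ W).card = U.card + δ ∧ U ∪ W ⊆ Z)) ≤
                ρ ^ c * (y ^ U.card * y ^ δ) := by
            intro W _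
            by_cases hW : (U ∪ W).card = U.card + δ
            · have h3 := hsp (U ∪ W) (by omega)
              rw [hW] at h3
              have h4 : Ev v (fun Z => ind (c < U.card + δ ∧
                  J.card + δ ≤ c ∧ (U ∪ W).card = U.card + δ ∧ U ∪ W ⊆ Z)) ≤
                    Ev v (fun Z => ind (U ∪ W ⊆ Z)) :=
                Ev_mono v fun Z => ind_mono fun h => h.2.2.2
              refine h4.trans (h3.trans ?_)
              rw [mul_pow, ← pow_add y]
              apply mul_le_mul_of_nonneg_right _ (by positivity)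
              exact pow_le_pow_of_le_one hρ0 hρ1 (by omega)
            · have h3 : (fun Z : Finset X => ind (c < U.card + δ ∧
                  J.card + δ ≤ c ∧ (U ∪ W).card = U.card + δ ∧ U ∪ W ⊆ Z))
                  = fun _ => (0 : ℝ) * 1 := by
                funext Z
                rw [ind_not (fun h => hW h.2.2.1)]; ring
              rw [h3, Ev_const_mul, zero_mul]
              positivity
          refine (Finset.sum_le_sum h2).trans ?_
          rw [Finset.sum_const, nsmul_eq_mul]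
          have h3 := card_relMinsAt_le hL hB1 hcov hcl hcond.2 ∅ J (Finset.empty_subset _)
          rw [Nat.add_sub_cancel_left] at h3
          have h4 : 0 ≤ ρ ^ c * (y ^ U.card * y ^ δ) := by positivity
          refine (mul_le_mul_of_nonneg_right h3 h4).trans ?_
          have h5 : B ^ δ * (ρ ^ c * (y ^ U.card * y ^ δ)) = ρ ^ c * y ^ U.card * (B * y) ^ δ := by
            rw [mul_pow]; ring
          rw [h5]
          apply mul_le_mul_of_nonneg_left _ (by positivity)
          apply pow_le_pow_left₀ (by positivity)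
          nlinarith [mul_nonneg hB0 hy]
        · have h2 : ∀ W ∈ relMinsAt 𝒮 ∅ (J.card + δ) J, Ev v (fun Z => ind (c < U.card + δ ∧
              J.card + δ ≤ c ∧ (U ∪ W).card = U.card + δ ∧ U ∪ W ⊆ Z)) = 0 := by
            intro W _
            have h3 : (fun Z : Finset X => ind (c < U.card + δ ∧
                  J.card + δ ≤ c ∧ (U ∪ W).card = U.card + δ ∧ U ∪ W ⊆ Z))
                  = fun _ => (0 : ℝ) * 1 := by
                funext Z
                rw [ind_not (fun h => hcond ⟨h.1, h.2.1⟩)]; ring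
            rw [h3, Ev_const_mul, zero_mul]
          rw [Finset.sum_eq_zero h2]
          positivity
      refine (Finset.sum_le_sum h1).trans (le_of_eq ?_)
      rw [Finset.sum_const, Finset.card_powerset, nsmul_eq_mul, mul_pow]
      push_cast
      ring
    have h0 := ih' U hU
    have hfin : ρ ^ c * (2 * y) ^ U.card * ((1 + g) ^ (𝒮 :: l).length - 1) =
        ρ ^ c * (2 * y) ^ U.card * A + (ρ ^ c * (2 * y) ^ U.card * (g * A) +
          ρ ^ c * (2 * y) ^ U.card * g) := by
      rw [List.length_cons, pow_succ, hA]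
      ring
    rw [hfin]
    exact add_le_add h0 (add_le_add hsmall hlarge)

theorem geom_Icc {z : ℝ} (hz0 : 0 ≤ z) (hz : z ≤ 1 / 2) (c : ℕ) :
    ∑ δ ∈ Finset.Icc 1 c, z ^ δ ≤ 2 * z := by
  have h : ∀ c : ℕ, ∑ δ ∈ Finset.Icc 1 c, z ^ δ ≤ 2 * z - 2 * z ^ (c + 1) := by
    intro c
    induction c with
    | zero => simp
    | succ c ih =>
      rw [Finset.sum_Icc_succ_top (by omega)]
      have h1 : z ^ (c + 1 + 1) = z ^ (c + 1) * z := pow_succ _ _
      have h2 : 0 ≤ z ^ (c + 1) := by positivity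
      nlinarith
  have h1 : 0 ≤ z ^ (c + 1) := by positivity
  have := h c
  linarith

theorem pow_le_two_pow {x : ℝ} (hx : 0 ≤ x) {n m c : ℕ} (hnm : n ≤ m)
    (h : 3 * (x * m) ≤ 2 * c) : (1 + x) ^ n ≤ 2 ^ c := by
  have h1 : (1 + x) ^ n ≤ (1 + x) ^ m := pow_le_pow_right₀ (by linarith) hnm
  have h2 : (1 + x) ^ m ≤ Real.exp x ^ m := by
    apply pow_le_pow_left₀ (by linarith)
    have := Real.add_one_le_exp x
    linarith
  have h3 : Real.exp x ^ m = Real.exp (m * x) := by rw [Real.exp_nat_mul]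
  have h4 : Real.exp (m * x) ≤ Real.exp (c * Real.log 2) := by
    apply Real.exp_le_exp.2
    have h5 := Real.log_two_gt_d9
    have h6 : (0 : ℝ) ≤ c := Nat.cast_nonneg c
    nlinarith
  have h5 : Real.exp (c * Real.log 2) = 2 ^ c := by
    rw [Real.exp_nat_mul, Real.exp_log (by norm_num)]
  rw [h3] at h2
  rw [h5] at h4
  exact h1.trans (h2.trans h4)

theorem Ev_bad_small {L c : ℕ} {B : ℝ} (hL : 0 < L) (hB1 : 1 ≤ B) (hcov : G.Covers N c B)
    (v : Ω → Finset X) {κ : ℝ} (hκ : 0 ≤ κ) (hsp : Spread v (2 * c) κ)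
    (hBκ : 16 * (B * κ) ≤ 1) {m : ℕ} (hm : 24 * (B * κ * m) ≤ c)
    (l : List (Finset (Finset X))) (hl : ∀ 𝒮 ∈ l, G.Closed N L c 𝒮 ∧ 𝒮 ⊆ smalls c)
    (hlm : l.length ≤ m) : Ev v (fun Z => ind (Bad c l ∅ Z)) ≤ (1 / 2 : ℝ) ^ c := by
  have hB0 : 0 ≤ B := by linarith
  have hBκ0 : 0 ≤ B * κ := mul_nonneg hB0 hκ
  have hsp' : Spread v (2 * c) (1 / 4 * (4 * κ)) := by
    have : (1 / 4 * (4 * κ) : ℝ) = κ := by ring
    rw [this]; exact hsp
  have h1 := Ev_bad_le hL hB1 hcov v (ρ := 1 / 4) (y := 4 * κ) (by norm_num) (by norm_num)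
    (by positivity) hsp' rfl l hl ∅ (by simp)
  refine h1.trans ?_
  rw [Finset.card_empty, pow_zero, mul_one]
  set g := ∑ δ ∈ Finset.Icc 1 c, (2 * B * (4 * κ)) ^ δ with hg
  have hg1 : g ≤ 16 * (B * κ) := by
    have := geom_Icc (z := 2 * B * (4 * κ)) (by positivity) (by nlinarith) c
    rw [← hg] at this
    linarith
  have hg0 : 0 ≤ g := Finset.sum_nonneg fun δ _ => by positivity
  have h2 : (1 + g) ^ l.length ≤ 2 ^ c := by
    refine (pow_le_pow_left₀ (by linarith) (by linarith : 1 + g ≤ 1 + 16 * (B * κ)) _).trans ?_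
    apply pow_le_two_pow (by positivity) hlm
    have : 3 * (16 * (B * κ) * m) = 2 * (24 * (B * κ * m)) := by ring
    rw [this]
    linarith
  have h3 : (1 / 4 : ℝ) ^ c * ((1 + g) ^ l.length - 1) ≤ (1 / 4) ^ c * 2 ^ c :=
    mul_le_mul_of_nonneg_left (by linarith) (by positivity)
  refine h3.trans (le_of_eq ?_)
  rw [← mul_pow]
  norm_num

end Pool.Agent.T9h35.Wide
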