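import Pool.Agent.T9h34.G.Closed

/-!
Members of a closed family which are minimal above a given set.
-/

set_option autoImplicit false

namespace Pool.Agent.T9h35.Wide

open Finset Pool.Agent.T9h34 Pool.Agent.T9h34.G

variable {X : Type*} [Fintype X] [DecidableEq X] {N : NoiseOp X}

/-- Closed families are closed under small supersets. -/
theorem closed_up {L c : ℕ} {𝒮 : Finset (Finset X)} (hcl : Closed N L c 𝒮) {S T : Finset X}
    (hS : S ∈ 𝒮) (hST : S ⊆ T) (hT : T.card ≤ c) : T ∈ 𝒮 := by
  apply hcl T hT
  have : (fun W : Finset X => ind (¬ cov 𝒮 (T ∪ W))) = fun _ => 0 := by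
    funext W
    apply ind_not
    intro h
    exact h ⟨S, hS, hST.trans Finset.subset_union_left⟩
  rw [this, N.iter_const]
  positivity

theorem closed_empty {L c : ℕ} : Closed N L c (∅ : Finset (Finset X)) := by
  intro T _ h
  exfalso
  have : (fun W : Finset X => ind (¬ cov (∅ : Finset (Finset X)) (T ∪ W))) = fun _ => 1 := by
    funext W
    apply ind_of
    rintro ⟨S, hS, _⟩
    simp at hS
  rw [this, N.iter_const] at h
  have h2 : (1 / 2 : ℝ) ^ L ≤ 1 := pow_le_one₀ (by norm_num) (by norm_num)
  linarith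

theorem closed_smalls {L c : ℕ} : Closed N L c (smalls (X := X) c) :=
  fun _ hT _ => mem_smalls.2 hT

/-- Members of size `k` that contain `J` and are minimal among the members containing `U`. -/
def relMinsAt (𝒮 : Finset (Finset X)) (U : Finset X) (k : ℕ) (J : Finset X) :
    Finset (Finset X) :=
  𝒮.filter (fun S => (∀ S' ∈ 𝒮, U ⊆ S' → S' ⊆ S → S' = S) ∧ S.card = k ∧ J ⊆ S)

theorem exists_relMin {𝒮 : Finset (Finset X)} {S U : Finset X} (hS : S ∈ 𝒮) (hU : U ⊆ S) :
    ∃ M ∈ 𝒮, U ⊆ M ∧ M ⊆ S ∧ ∀ S' ∈ 𝒮, U ⊆ S' → S' ⊆ M → S' = M := by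
  induction hn : S.card using Nat.strong_induction_on generalizing S with
  | _ n ih =>
    by_cases h : ∀ S' ∈ 𝒮, U ⊆ S' → S' ⊆ S → S' = S
    · exact ⟨S, hS, hU, le_refl _, h⟩
    · push Not at h
      obtain ⟨S', h1, h2, h3, h4⟩ := h
      have hlt : S'.card < n := by
        rw [← hn]
        exact Finset.card_lt_card (Finset.ssubset_iff_subset_ne.2 ⟨h3, h4⟩)
      obtain ⟨M, hM, hUM, hMS, hmin⟩ := ih _ hlt h1 h2 rfl
      exact ⟨M, hM, hUM, hMS.trans h3, hmin⟩

theorem card_relMinsAt_le {L c : ℕ} {B : ℝ} (hL : 0 < L) (hB1 : 1 ≤ B) (hcov : Covers N c B)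
    {𝒮 : Finset (Finset X)} (hcl : Closed N L c 𝒮) {k : ℕ} (hk : k ≤ c) (U J : Finset X)
    (hUJ : U ⊆ J) :
    ((relMinsAt 𝒮 U k J).card : ℝ) ≤ B ^ (k - J.card) := by
  induction hn : k - J.card using Nat.strong_induction_on generalizing J with
  | _ n ih =>
    have hB0 : (0 : ℝ) ≤ B ^ n := by positivity
    have hB1n : (1 : ℝ) ≤ B ^ n := one_le_pow₀ hB1
    by_cases hJk : k < J.card
    · have : relMinsAt 𝒮 U k J = ∅ := by
        rw [Finset.eq_empty_iff_forall_notMem]
        intro S hS
        simp only [relMinsAt, Finset.mem_filter] at hS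
        have := Finset.card_le_card hS.2.2.2
        omega
      rw [this]; simpa using hB0
    by_cases hJ : J ∈ 𝒮
    · have : relMinsAt 𝒮 U k J ⊆ {J} := by
        intro S hS
        simp only [relMinsAt, Finset.mem_filter] at hS
        rw [Finset.mem_singleton]
        exact (hS.2.1 J hJ hUJ hS.2.2.2).symm
      have h2 := Finset.card_le_card this
      rw [Finset.card_singleton] at h2
      have h3 : ((relMinsAt 𝒮 U k J).card : ℝ) ≤ 1 := by exact_mod_cast h2
      exact le_trans h3 hB1n
    push Not at hJk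
    by_contra hgt
    push Not at hgt
    apply hJ
    have hnk : n ≤ c := by omega
    -- the link family
    set 𝒯 := (relMinsAt 𝒮 U k J).image (fun S => S \ J) with h𝒯
    have hinj : Set.InjOn (fun S : Finset X => S \ J) (relMinsAt 𝒮 U k J : Set (Finset X)) := by
      intro S hS S' hS' h
      simp only [relMinsAt, Finset.coe_filter, Set.mem_ofPred_eq] at hS hS'
      simp only at h
      rw [← Finset.sdiff_union_of_subset hS.2.2.2, ← Finset.sdiff_union_of_subset hS'.2.2.2, h]
    have hcardT : 𝒯.card = (relMinsAt 𝒮 U k J).card := Finset.card_image_of_injOn hinj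
    have hcard : ∀ T ∈ 𝒯, T.card = n := by
      intro T hT
      rw [h𝒯, Finset.mem_image] at hT
      obtain ⟨S, hS, rfl⟩ := hT
      simp only [relMinsAt, Finset.mem_filter] at hS
      rw [Finset.card_sdiff_of_subset hS.2.2.2, hS.2.2.1, hn]
    have hdeg : ∀ K : Finset X, K.Nonempty → ((𝒯.filter (fun T => K ⊆ T)).card : ℝ)
        ≤ B ^ (n - K.card) := by
      intro K hK
      have hKc : 0 < K.card := Finset.card_pos.2 hK
      by_cases hKJ : Disjoint K J
      · have hsub : (𝒯.filter (fun T => K ⊆ T)) ⊆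
            (relMinsAt 𝒮 U k (J ∪ K)).image (fun S => S \ J) := by
          intro T hT
          rw [Finset.mem_filter] at hT
          obtain ⟨hT1, hT2⟩ := hT
          rw [h𝒯, Finset.mem_image] at hT1
          obtain ⟨S, hS, rfl⟩ := hT1
          rw [Finset.mem_image]
          refine ⟨S, ?_, rfl⟩
          simp only [relMinsAt, Finset.mem_filter] at hS ⊢
          refine ⟨hS.1, hS.2.1, hS.2.2.1,
            Finset.union_subset hS.2.2.2 (hT2.trans Finset.sdiff_subset)⟩
        have h1 : (𝒯.filter (fun T => K ⊆ T)).card ≤ (relMinsAt 𝒮 U k (J ∪ K)).card :=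
          le_trans (Finset.card_le_card hsub) Finset.card_image_le
        have h2 : ((𝒯.filter (fun T => K ⊆ T)).card : ℝ) ≤ (relMinsAt 𝒮 U k (J ∪ K)).card := by
          exact_mod_cast h1
        have hJKc : (J ∪ K).card = J.card + K.card := Finset.card_union_of_disjoint hKJ.symm
        by_cases hbig : k < (J ∪ K).card
        · have : relMinsAt 𝒮 U k (J ∪ K) = ∅ := by
            rw [Finset.eq_empty_iff_forall_notMem]
            intro S hS
            simp only [relMinsAt, Finset.mem_filter] at hS
            have := Finset.card_le_card hS.2.2.2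
            omega
          rw [this] at h2
          simp only [Finset.card_empty, Nat.cast_zero] at h2
          exact le_trans h2 (by positivity)
        · push Not at hbig
          have h3 := ih (k - (J ∪ K).card) (by omega) (J ∪ K)
            (hUJ.trans Finset.subset_union_left) rfl
          have h4 : k - (J ∪ K).card = n - K.card := by omega
          rw [h4] at h3
          exact le_trans h2 h3
      · have : 𝒯.filter (fun T => K ⊆ T) = ∅ := by
          rw [Finset.eq_empty_iff_forall_notMem]
          intro T hT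
          rw [Finset.mem_filter] at hT
          obtain ⟨hT1, hT2⟩ := hT
          rw [h𝒯, Finset.mem_image] at hT1
          obtain ⟨S, hS, rfl⟩ := hT1
          apply hKJ
          exact Finset.disjoint_of_subset_left hT2 Finset.sdiff_disjoint
        rw [this]
        simp only [Finset.card_empty, Nat.cast_zero]
        positivity
    have hprob := (hcov n 𝒯 hnk hcard hdeg).1
    set P := N.E (fun z => ind (∃ T ∈ 𝒯, T ⊆ z)) with hP
    have hP1 : P ≤ 1 := N.le_one (fun z => ind_le_one _)
    rw [hcardT] at hprob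
    have hhalf : 1 - P < 1 / 2 := hprob hgt
    apply hcl J (by omega)
    have h1 : ∀ W : Finset X, ind (¬ cov 𝒮 (J ∪ W)) ≤ ind (¬ ∃ T ∈ 𝒯, T ⊆ W) := by
      intro W
      apply ind_mono
      intro h ⟨T, hT, hTW⟩
      apply h
      rw [h𝒯, Finset.mem_image] at hT
      obtain ⟨S, hS, rfl⟩ := hT
      simp only [relMinsAt, Finset.mem_filter] at hS
      refine ⟨S, hS.1, ?_⟩
      rw [← Finset.union_sdiff_of_subset hS.2.2.2]
      exact Finset.union_subset_union_right hTW
    refine lt_of_le_of_lt (le_trans (N.iter_mono L h1) (N.iter_not_cover 𝒯 L)) ?_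
    exact pow_lt_pow_left₀ hhalf (by linarith) hL.ne'

end Pool.Agent.T9h35.Wide
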